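import Pool.Agent.Helper487.Jack.Poly

open Polynomial Finset

namespace Helper487.Jack

/-- `binom(X + k, n)` -/
noncomputable def binP (n k : ℕ) : ℚ[X] :=
  C ((n.factorial : ℚ)⁻¹) * ∏ j ∈ range n, (X + C (k : ℚ) - C (j : ℚ))

/-- `(X)_{k+1} = X (X-1) ⋯ (X-k)` -/
noncomputable def fallP (k : ℕ) : ℚ[X] := ∏ j ∈ range (k + 1), (X - C (j : ℚ))

lemma binP_eval (n k κ : ℕ) :
    (binP n k).eval (κ : ℚ) = (((κ + k).descFactorial n / n.factorial : ℕ) : ℚ) := by
  unfold binP
  have h2 : (n.factorial : ℚ) ≠ 0 := by exact_mod_cast n.factorial_ne_zero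
  have h3 : (∏ j ∈ range n, (X + C (k : ℚ) - C (j : ℚ))).eval (κ : ℚ) =
      ((κ + k).descFactorial n : ℚ) := by
    rw [← prod_sub_eval, eval_prod, eval_prod]
    apply Finset.prod_congr rfl
    intro j _
    simp
  rw [eval_mul, eval_C, h3, Nat.cast_div (Nat.factorial_dvd_descFactorial _ _) h2]
  field_simp

lemma binP_eval_choose (n k κ : ℕ) :
    (binP n k).eval (κ : ℚ) = ((κ + k).choose n : ℚ) := by
  rw [binP_eval, Nat.choose_eq_descFactorial_div_factorial]

lemma fallP_eval (k κ : ℕ) : (fallP k).eval (κ : ℚ) = (κ.descFactorial (k + 1) : ℚ) :=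
  prod_sub_eval κ (k + 1)

lemma binP_coords_unique {n : ℕ} {d : ℕ → ℚ} (h : ∑ k ∈ range n, C (d k) * binP n k = 0) :
    ∀ k < n, d k = 0 := by
  have key : ∀ j, 1 ≤ j → j ≤ n → d (n - j) = 0 := by
    intro j
    induction j using Nat.strong_induction_on with
    | _ j ih =>
    intro h1 h2
    have h3 := congrArg (Polynomial.eval (j : ℚ)) h
    rw [eval_finsetSum, eval_zero, Finset.sum_eq_single (n - j)] at h3
    · rw [eval_mul, eval_C, binP_eval_choose] at h3
      have : j + (n - j) = n := by omega
      rw [this, Nat.choose_self] at h3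
      simpa using h3
    · intro k hk hkj
      rw [Finset.mem_range] at hk
      rw [eval_mul, eval_C, binP_eval_choose]
      rcases lt_or_gt_of_ne hkj with h4 | h4
      · rw [Nat.choose_eq_zero_of_lt (by omega)]
        simp
      · have := ih (n - k) (by omega) (by omega) (by omega)
        have e : n - (n - k) = k := by omega
        rw [e] at this
        rw [this, zero_mul]
    · intro h4
      rw [Finset.mem_range] at h4
      omega
  intro k hk
  have := key (n - k) (by omega) (by omega)
  have e : n - (n - k) = k := by omega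
  rwa [e] at this

lemma fallP_coords_unique {n : ℕ} {d : ℕ → ℚ} (h : ∑ k ∈ range n, C (d k) * fallP k = 0) :
    ∀ k < n, d k = 0 := by
  intro k
  induction k using Nat.strong_induction_on with
  | _ k ih =>
  intro hk
  have h3 := congrArg (Polynomial.eval ((k + 1 : ℕ) : ℚ)) h
  rw [eval_finsetSum, eval_zero, Finset.sum_eq_single k] at h3
  · rw [eval_mul, eval_C, fallP_eval, Nat.descFactorial_self] at h3
    rcases mul_eq_zero.1 h3 with h4 | h4
    · exact h4
    · exact absurd h4 (by exact_mod_cast Nat.factorial_ne_zero _)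
  · intro j hj hjk
    rw [Finset.mem_range] at hj
    rw [eval_mul, eval_C, fallP_eval]
    rcases lt_or_gt_of_ne hjk with h4 | h4
    · rw [ih j h4 hj, zero_mul]
    · rw [Nat.descFactorial_eq_zero_iff_lt.2 (by omega)]
      simp
  · intro h4
    rw [Finset.mem_range] at h4
    exact absurd hk h4

lemma natDegree_binP_le (n k : ℕ) : (binP n k).natDegree ≤ n := by
  unfold binP
  refine (natDegree_C_mul_le _ _).trans ?_
  refine (natDegree_prod_le _ _).trans ?_
  refine (Finset.sum_le_card_nsmul _ _ 1 (fun l _ => ?_)).trans (by simp)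
  have : (X + C (k : ℚ) - C (l : ℚ)) = X + C ((k : ℚ) - l) := by
    rw [C_sub]
    ring
  rw [this]
  exact (natDegree_X_add_C _).le

lemma natDegree_fallP_le (k : ℕ) : (fallP k).natDegree ≤ k + 1 := natDegree_prod_sub_le (k + 1)

end Helper487.Jack
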