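import Mathlib

/-!
# Symmetric functions and Jack symmetric functions

The ring of symmetric functions in infinitely many variables over a field `K` of characteristic
zero is the polynomial ring in the power sums `p_1, p_2, …`.  The variable `X k` of
`SymFun K = MvPolynomial ℕ K` stands for `p_{k+1}`, and `inVars N f` is the symmetric function
`f` written in the variables `x_0, …, x_{N-1}`.
-/

open MvPolynomial

namespace Helper487.Jack

/-- The ring of symmetric functions over `K`; the variable `X k` is the power sum `p_{k+1}`. -/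
abbrev SymFun (K : Type*) [Field K] := MvPolynomial ℕ K

/-- The symmetric function `f`, written in the `N` variables `x_0, …, x_{N-1}`. -/
noncomputable def inVars (K : Type*) [Field K] (N : ℕ) :
    SymFun K →ₐ[K] MvPolynomial (Fin N) K :=
  aeval fun k => psum (Fin N) K (k + 1)

/-- `z_λ = ∏_k k^{n_k} n_k!` for the power-sum product `p_λ = ∏_k p_{k+1}^{d k}`. -/
def zee (d : ℕ →₀ ℕ) : ℕ := ∏ k ∈ d.support, (k + 1) ^ d k * (d k).factorial

/-- `ℓ(λ)`, the number of factors of the power-sum product `p_λ = ∏_k p_{k+1}^{d k}`. -/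
def len (d : ℕ →₀ ℕ) : ℕ := ∑ k ∈ d.support, d k

/-- The scalar product `⟨p_λ, p_ν⟩_t = δ_{λν} z_λ t^{ℓ(λ)}`.  The Hall inner product is the case
`t = 1`. -/
noncomputable def pairing {K : Type*} [Field K] (t : K) (f g : SymFun K) : K :=
  ∑ d ∈ f.support, coeff d f * coeff d g * ((zee d : K) * t ^ len d)

/-- `row μ i` is the `(i+1)`-st part of `μ` (in decreasing order; `0` if there is none). -/
def row {n : ℕ} (μ : n.Partition) (i : ℕ) : ℕ := (μ.parts.sort (· ≥ ·)).getD i 0

/-- `col μ j` is the length of the `(j+1)`-st column of `μ`. -/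
def col {n : ℕ} (μ : n.Partition) (j : ℕ) : ℕ := ((Finset.range n).filter fun i => j < row μ i).card

/-- Strict dominance order `ν < μ`. -/
def DomLT {n : ℕ} (ν μ : n.Partition) : Prop :=
  ν ≠ μ ∧ ∀ k, ∑ i ∈ Finset.range k, row ν i ≤ ∑ i ∈ Finset.range k, row μ i

open Classical in
/-- `f` has the form `∑_{ν < μ} c_ν m_ν`. -/
def IsLower {K : Type*} [Field K] {n : ℕ} (μ : n.Partition) (f : SymFun K) : Prop :=
  ∃ c : n.Partition → K, ∀ N : ℕ, inVars K N f =
    ∑ ν ∈ Finset.univ.filter (fun ν : n.Partition => DomLT ν μ), c ν • msymm (Fin N) K ν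

open Classical in
/-- `f` has the form `m_μ + ∑_{ν < μ} c_ν m_ν`. -/
def IsUnitriangular {K : Type*} [Field K] {n : ℕ} (μ : n.Partition) (f : SymFun K) : Prop :=
  ∃ c : n.Partition → K, ∀ N : ℕ, inVars K N f = msymm (Fin N) K μ +
    ∑ ν ∈ Finset.univ.filter (fun ν : n.Partition => DomLT ν μ), c ν • msymm (Fin N) K ν

/-- The defining property of the family `(P_μ)_{μ ⊢ n}` of Jack symmetric functions with
parameter `t`: they are unitriangular in the monomial basis and mutually orthogonal for
`⟨ , ⟩_t`. -/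
def IsJackFamily {K : Type*} [Field K] (t : K) {n : ℕ} (P : n.Partition → SymFun K) : Prop :=
  (∀ μ, IsUnitriangular μ (P μ)) ∧ ∀ μ ν, μ ≠ ν → pairing t (P μ) (P ν) = 0

/-- The same for a single `μ`: `f` has the form `m_μ + ∑_{ν < μ} c_ν m_ν` and is orthogonal to
every `∑_{ν < μ} b_ν m_ν`. -/
def IsJack {K : Type*} [Field K] (t : K) {n : ℕ} (μ : n.Partition) (f : SymFun K) : Prop :=
  IsUnitriangular μ f ∧ ∀ g : SymFun K, IsLower μ g → pairing t f g = 0

/-- `∏_{s ∈ μ} (t a(s) + l(s) + 1)`. -/
noncomputable def hookNorm {K : Type*} [Field K] (t : K) {n : ℕ} (μ : n.Partition) : K :=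
  ∏ i ∈ Finset.range n, ∏ j ∈ Finset.range (row μ i),
    (t * ((row μ i - (j + 1) : ℕ) : K) + ((col μ j - (i + 1) : ℕ) : K) + 1)

/-- `s` is the Schur function `s_λ = det (e_{λ'_i - i + j})` (Nägelsbach–Kostka). -/
def IsSchur {K : Type*} [Field K] {n : ℕ} (lam : n.Partition) (s : SymFun K) : Prop :=
  ∀ N : ℕ, inVars K N s = Matrix.det (fun i j : Fin (row lam 0) =>
    if (i : ℕ) ≤ col lam i + j then esymm (Fin N) K (col lam i + j - i) else 0)

end Helper487.Jack
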