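import Pool.Agent.Helper487.Jack.Main

open MvPolynomial Finset

namespace Helper487.Jack

variable {K : Type*} [Field K]

/-- The power-sum product of a multiset of positive integers. -/
noncomputable def pprod (K : Type*) [Field K] (M : Multiset ℕ) : SymFun K :=
  (M.map (fun i => (X (i - 1) : SymFun K))).prod

lemma isHomogeneous_pprod (N : ℕ) (M : Multiset ℕ) (hM : ∀ i ∈ M, 0 < i) :
    (inVars K N (pprod K M)).IsHomogeneous M.sum := by
  induction M using Multiset.induction_on with
  | empty =>
    unfold pprod
    simp only [Multiset.map_zero, Multiset.prod_zero, map_one, Multiset.sum_zero]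
    exact isHomogeneous_one _ _
  | cons a M ih =>
    have h1 : pprod K (a ::ₘ M) = X (a - 1) * pprod K M := by
      unfold pprod
      rw [Multiset.map_cons, Multiset.prod_cons]
    rw [h1, map_mul, inVars_X, Multiset.sum_cons]
    have ha : a - 1 + 1 = a := by
      have := hM a (Multiset.mem_cons_self a M)
      omega
    rw [ha]
    exact (isHomogeneous_psum N a).mul (ih (fun i hi => hM i (Multiset.mem_cons_of_mem hi)))

lemma pprod_eq_monomial (M : Multiset ℕ) :
    pprod K M = monomial (Multiset.toFinsupp (M.map (fun i => i - 1))) 1 := by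
  unfold pprod
  rw [← prod_map_X_eq, Multiset.map_map]
  rfl

lemma pexp_injective {n : ℕ} {κ ν : n.Partition}
    (h : Multiset.toFinsupp (κ.parts.map (fun i => i - 1)) =
      Multiset.toFinsupp (ν.parts.map (fun i => i - 1))) : κ = ν := by
  have h1 := Multiset.toFinsupp.injective h
  have h2 : ∀ μ : n.Partition, (μ.parts.map (fun i => i - 1)).map (fun i => i + 1) = μ.parts := by
    intro μ
    rw [Multiset.map_map]
    conv_rhs => rw [← Multiset.map_id μ.parts]
    apply Multiset.map_congr rfl
    intro i hi
    have := μ.parts_pos hi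
    simp only [Function.comp_apply, id]
    omega
  apply Nat.Partition.ext
  rw [← h2 κ, h1, h2 ν]

/-- The monomial symmetric functions exist in the ring of symmetric functions. -/
lemma exists_msymm [CharZero K] {t : K} (ht : t ≠ 0) {n : ℕ} (ν : n.Partition) :
    ∃ M : SymFun K, (∀ N, inVars K N M = msymm (Fin N) K ν) ∧
      ∀ κ : n.Partition, pairing t M (gprod (fun _ => t⁻¹) κ.parts) = if κ = ν then 1 else 0 := by
  classical
  let L : (n.Partition → K) →ₗ[K] SymFun K :=
    { toFun := fun c => ∑ κ, c κ • pprod K κ.parts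
      map_add' := fun c d => by
        simp only [Pi.add_apply, add_smul, Finset.sum_add_distrib]
      map_smul' := fun c d => by
        simp only [Pi.smul_apply, smul_eq_mul, mul_smul, Finset.smul_sum, RingHom.id_apply] }
  have hLhom : ∀ c N, (inVars K N (L c)).IsHomogeneous n := by
    intro c N
    change (inVars K N (∑ κ, c κ • pprod K κ.parts)).IsHomogeneous n
    rw [map_sum]
    apply MvPolynomial.IsHomogeneous.sum
    intro κ _
    rw [map_smul, smul_eq_C_mul]
    have h1 := isHomogeneous_pprod (K := K) N κ.parts (fun i hi => κ.parts_pos hi)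
    rw [κ.parts_sum] at h1
    have h2 := (isHomogeneous_C (Fin N) (c κ)).mul h1
    rwa [zero_add] at h2
  let Φ : (n.Partition → K) →ₗ[K] (n.Partition → K) :=
    LinearMap.pi (fun κ => ((pairL t).flip (gprod (fun _ => t⁻¹) κ.parts)).comp L)
  have hΦ : ∀ c κ, Φ c κ = pairing t (L c) (gprod (fun _ => t⁻¹) κ.parts) := fun c κ => rfl
  have hinj : Function.Injective Φ := by
    rw [← LinearMap.ker_eq_bot, LinearMap.ker_eq_bot']
    intro c hc
    have h0 : L c = 0 := by
      apply eq_zero_of_inVars
      intro N
      rw [inVars_eq_sum_msymm ht (hLhom c) N]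
      apply Finset.sum_eq_zero
      intro κ _
      rw [← hΦ, hc, Pi.zero_apply, zero_smul]
    funext κ
    have h1 : coeff (Multiset.toFinsupp (κ.parts.map (fun i => i - 1))) (L c) = c κ := by
      change coeff _ (∑ κ, c κ • pprod K κ.parts) = c κ
      rw [coeff_sum, Finset.sum_eq_single κ]
      · rw [coeff_smul, pprod_eq_monomial, coeff_monomial, if_pos rfl, smul_eq_mul, mul_one]
      · intro ν' _ hne
        rw [coeff_smul, pprod_eq_monomial, coeff_monomial, if_neg, smul_zero]
        intro h
        exact hne (pexp_injective h)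
      · intro h
        exact absurd (Finset.mem_univ _) h
    rw [← h1, h0, coeff_zero, Pi.zero_apply]
  have hsurj := (LinearMap.injective_iff_surjective (f := Φ)).1 hinj
  obtain ⟨c, hc⟩ := hsurj (fun κ => if κ = ν then 1 else 0)
  refine ⟨L c, fun N => ?_, fun κ => by rw [← hΦ, hc]⟩
  rw [inVars_eq_sum_msymm ht (hLhom c) N, Finset.sum_eq_single ν]
  · rw [← hΦ, hc]
    beta_reduce
    rw [if_pos rfl, one_smul]
  · intro κ _ hκ
    rw [← hΦ, hc]
    beta_reduce
    rw [if_neg hκ, zero_smul]
  · intro h
    exact absurd (Finset.mem_univ _) h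

/-- The Jack functions exist. -/
theorem exists_isJack [CharZero K] {t : K} (φ : K →+* ℝ) (hφ : 0 < φ t) {n : ℕ}
    (μ : n.Partition) : ∃ f, IsJack t μ f := by
  classical
  have ht : t ≠ 0 := by
    rintro rfl
    simp at hφ
  choose M hM1 hM2 using fun ν : n.Partition => exists_msymm ht ν
  let S := {ν : n.Partition // DomLT ν μ}
  let L : (S → K) →ₗ[K] SymFun K :=
    { toFun := fun c => ∑ κ : S, c κ • M κ.1
      map_add' := fun c d => by
        simp only [Pi.add_apply, add_smul, Finset.sum_add_distrib]
      map_smul' := fun c d => by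
        simp only [Pi.smul_apply, smul_eq_mul, mul_smul, Finset.smul_sum, RingHom.id_apply] }
  have hL : ∀ c, L c = ∑ κ : S, c κ • M κ.1 := fun c => rfl
  let Ψ : (S → K) →ₗ[K] (S → K) :=
    LinearMap.pi (fun κ => ((pairL t).flip (M κ.1)).comp L)
  have hΨ : ∀ c κ, Ψ c κ = pairing t (L c) (M κ.1) := fun c κ => rfl
  have hinj : Function.Injective Ψ := by
    rw [← LinearMap.ker_eq_bot, LinearMap.ker_eq_bot']
    intro c hc
    have h0 : pairing t (L c) (L c) = 0 := by
      nth_rw 2 [hL]
      rw [pairing_sum_right]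
      apply Finset.sum_eq_zero
      intro κ _
      rw [pairing_smul_right, ← hΨ, hc, Pi.zero_apply, mul_zero]
    have h1 := eq_zero_of_pairing_self φ hφ h0
    funext κ
    have h2 : pairing t (L c) (gprod (fun _ => t⁻¹) κ.1.parts) = c κ := by
      rw [hL, pairing_sum_left, Finset.sum_eq_single κ]
      · rw [pairing_smul_left, hM2, if_pos rfl, mul_one]
      · intro ν _ hne
        rw [pairing_smul_left, hM2, if_neg, mul_zero]
        intro h
        exact hne (Subtype.ext h.symm)
      · intro h
        exact absurd (Finset.mem_univ _) h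
    rw [← h2, h1, pairing_zero_left, Pi.zero_apply]
  have hsurj := (LinearMap.injective_iff_surjective (f := Ψ)).1 hinj
  obtain ⟨b, hb⟩ := hsurj (fun κ => - pairing t (M μ) (M κ.1))
  have hsum : ∀ (c : n.Partition → K) (N : ℕ),
      ∑ κ : S, c κ.1 • msymm (Fin N) K κ.1 =
        ∑ ν ∈ Finset.univ.filter (fun ν : n.Partition => DomLT ν μ),
          c ν • msymm (Fin N) K ν := by
    intro c N
    symm
    apply Finset.sum_subtype
    intro ν
    simp
  refine ⟨M μ + L b, ⟨fun ν => if h : DomLT ν μ then b ⟨ν, h⟩ else 0, fun N => ?_⟩, ?_⟩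
  · rw [map_add, hM1, ← hsum, hL, map_sum]
    congr 1
    apply Finset.sum_congr rfl
    intro κ _
    rw [map_smul, hM1, dif_pos κ.2]
  · intro g hg
    obtain ⟨c, hc⟩ := hg
    have hg' : g = ∑ κ : S, c κ.1 • M κ.1 := by
      apply inVars_ext
      intro N
      rw [hc N, map_sum, ← hsum]
      apply Finset.sum_congr rfl
      intro κ _
      rw [map_smul, hM1]
    rw [hg', pairing_sum_right]
    apply Finset.sum_eq_zero
    intro κ _
    rw [pairing_smul_right, pairing_add_left, ← hΨ b κ, hb]
    ring

theorem existsUnique_isJack [CharZero K] {t : K} (φ : K →+* ℝ) (hφ : 0 < φ t) {n : ℕ}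
    (μ : n.Partition) : ∃! f, IsJack t μ f := by
  obtain ⟨f, hf⟩ := exists_isJack φ hφ μ
  exact ⟨f, hf, fun g hg => isJack_unique φ hφ hg hf⟩

end Helper487.Jack
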