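import Pool.Agent.Helper487.Jack.Newt

open MvPolynomial Finset

namespace Helper487.Jack

variable {K : Type*} [Field K]

/-! ### Nondegeneracy and injectivity -/

lemma eq_zero_of_pairing_eq_zero [CharZero K] {t : K} (ht : t ≠ 0) {f : SymFun K}
    (h : ∀ q, pairing t f q = 0) : f = 0 := by
  ext d
  have h1 := h (monomial d 1)
  rw [pairing_comm, pairing_monomial_left, one_mul] at h1
  have h2 : ((zee d : K) * t ^ len d) ≠ 0 := by
    apply mul_ne_zero
    · exact_mod_cast (zee_pos d).ne'
    · exact pow_ne_zero _ ht
  rw [coeff_zero]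
  rcases mul_eq_zero.1 h1 with h3 | h3
  · exact h3
  · exact absurd h3 h2

/-- A symmetric function is determined by its values in finitely many variables. -/
theorem eq_zero_of_inVars [CharZero K] {f : SymFun K} (h : ∀ N, inVars K N f = 0) : f = 0 := by
  apply eq_zero_of_pairing_eq_zero (t := (1 : K)) one_ne_zero
  set w : ℕ → K := fun _ => (1 : K)⁻¹ with hw
  have key : ∀ q : SymFun K, ∀ l : List ℕ, pairing 1 f (q * (l.map (newt w)).prod) = 0 := by
    have base : ∀ l : List ℕ, pairing 1 f (l.map (newt w)).prod = 0 := by
      intro l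
      have h1 := coeff_inVars (1 : K) one_ne_zero l.length f
        (Finsupp.equivFunOnFinite.symm (fun i : Fin l.length => l[i.1]))
      rw [h, coeff_zero] at h1
      have h2 : (∏ i : Fin l.length, newt (fun _ => (1 : K)⁻¹)
          ((Finsupp.equivFunOnFinite.symm (fun i : Fin l.length => l[i.1])) i)) =
          (l.map (newt w)).prod := by
        simp only [Finsupp.equivFunOnFinite_symm_apply_apply]
        exact Fin.prod_univ_fun_getElem l (newt w)
      rw [h2] at h1
      exact h1.symm
    have stepX : ∀ k : ℕ, ∀ q : SymFun K,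
        (∀ l : List ℕ, pairing 1 f (q * (l.map (newt w)).prod) = 0) →
        (∀ l : List ℕ, pairing 1 f (X k * q * (l.map (newt w)).prod) = 0) := by
      intro k
      induction k using Nat.strong_induction_on with
      | _ k ih =>
      intro q hq l
      have h1 := newt_sum w (k + 1)
      rw [Finset.sum_range_succ] at h1
      have hw1 : w k = 1 := by simp [hw]
      have h2 : (X k : SymFun K) = C ((k + 1 : ℕ) : K) * newt w (k + 1) -
          ∑ j ∈ range k, C (w j) * X j * newt w (k + 1 - 1 - j) := by
        rw [← h1, hw1]
        simp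
      have h3 : X k * q * (l.map (newt w)).prod =
          C ((k + 1 : ℕ) : K) * (q * ((List.cons (k + 1) l).map (newt w)).prod) -
          ∑ j ∈ range k, C (w j) * (X j * q * ((List.cons (k - j) l).map (newt w)).prod) := by
        rw [h2, List.map_cons, List.prod_cons]
        have : ∑ j ∈ range k, C (w j) * (X j * q * ((List.cons (k - j) l).map (newt w)).prod) =
          (∑ j ∈ range k, C (w j) * X j * newt w (k + 1 - 1 - j)) *
            (q * (l.map (newt w)).prod) := by
          rw [Finset.sum_mul]
          apply Finset.sum_congr rfl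
          intro j _
          rw [List.map_cons, List.prod_cons, Nat.add_sub_cancel]
          ring
        rw [this]
        ring
      rw [h3, pairing_sub_right, pairing_C_mul_right, hq, pairing_sum_right, mul_zero, zero_sub,
        neg_eq_zero]
      apply Finset.sum_eq_zero
      intro j hj
      rw [pairing_C_mul_right, ih j (Finset.mem_range.1 hj) q hq, mul_zero]
    intro q
    induction q using MvPolynomial.induction_on with
    | C c =>
      intro l
      rw [pairing_C_mul_right, base, mul_zero]
    | add p q hp hq =>
      intro l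
      rw [add_mul, pairing_add_right, hp, hq, add_zero]
    | mul_X p k hp =>
      intro l
      rw [mul_comm p (X k)]
      exact stepX k p hp l
  intro q
  have := key q []
  simpa using this

theorem inVars_ext [CharZero K] {f g : SymFun K} (h : ∀ N, inVars K N f = inVars K N g) :
    f = g := by
  have : f - g = 0 := eq_zero_of_inVars (fun N => by rw [map_sub, h N, sub_self])
  exact sub_eq_zero.1 this

/-! ### The shape of an exponent -/

/-- The multiset of nonzero exponents of a monomial. -/
def shape {N : ℕ} (a : Fin N →₀ ℕ) : Multiset ℕ := a.support.val.map a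

lemma shape_pos {N : ℕ} (a : Fin N →₀ ℕ) {i : ℕ} (h : i ∈ shape a) : 0 < i := by
  unfold shape at h
  obtain ⟨j, hj, rfl⟩ := Multiset.mem_map.1 h
  exact Nat.pos_of_ne_zero (Finsupp.mem_support_iff.1 hj)

lemma shape_sum {N : ℕ} (a : Fin N →₀ ℕ) : (shape a).sum = ∑ i, a i := by
  unfold shape
  have : (Multiset.map a a.support.val).sum = ∑ i ∈ a.support, a i := rfl
  rw [this]
  apply Finset.sum_subset (Finset.subset_univ _)
  intro i _ hi
  simpa using hi

lemma card_shape_le {N : ℕ} (a : Fin N →₀ ℕ) : Multiset.card (shape a) ≤ N := by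
  unfold shape
  rw [Multiset.card_map]
  exact (Finset.card_le_univ a.support).trans (by simp)

lemma prod_newt_eq_shape (w : ℕ → K) {N : ℕ} (a : Fin N →₀ ℕ) :
    ∏ i, newt w (a i) = ((shape a).map (newt w)).prod := by
  unfold shape
  rw [Multiset.map_map]
  have : (Multiset.map (newt w ∘ a) a.support.val).prod = ∏ i ∈ a.support, newt w (a i) := rfl
  rw [this]
  symm
  apply Finset.prod_subset (Finset.subset_univ _)
  intro i _ hi
  have : a i = 0 := by simpa using hi
  rw [this, newt_zero]

lemma prod_map_X_eq {σ : Type*} [DecidableEq σ] (s : Multiset σ) :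
    (s.map (X : σ → MvPolynomial σ K)).prod = monomial (Multiset.toFinsupp s) 1 := by
  induction s using Multiset.induction_on with
  | empty => simp
  | cons a s ih =>
    rw [Multiset.map_cons, Multiset.prod_cons, ih, X, monomial_mul, one_mul]
    congr 1
    rw [← Multiset.singleton_add, Multiset.toFinsupp_add, Multiset.toFinsupp_singleton]

lemma ofSym_parts_eq_shape {N n : ℕ} (s : Sym (Fin N) n) :
    (Nat.Partition.ofSym s).parts = shape (Multiset.toFinsupp s.1) := by
  unfold Nat.Partition.ofSym shape
  rfl

/-- The coefficients of the monomial symmetric polynomials. -/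
theorem coeff_msymm {N n : ℕ} (ν : n.Partition) (a : Fin N →₀ ℕ) :
    coeff a (msymm (Fin N) K ν) = if shape a = ν.parts then 1 else 0 := by
  classical
  unfold msymm
  rw [coeff_sum]
  have h1 : ∀ s : {s : Sym (Fin N) n // Nat.Partition.ofSym s = ν},
      coeff a ((s.1.1.map (X : Fin N → MvPolynomial (Fin N) K)).prod) =
        if Multiset.toFinsupp s.1.1 = a then 1 else 0 := by
    intro s
    rw [prod_map_X_eq, coeff_monomial]
  simp only [h1]
  by_cases h : shape a = ν.parts
  · rw [if_pos h]
    have hcard : Multiset.card (Finsupp.toMultiset a) = n := by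
      rw [Finsupp.card_toMultiset, Finsupp.sum_fintype _ _ (fun _ => rfl)]
      have := shape_sum a
      rw [h, ν.parts_sum] at this
      rw [this]
      rfl
    let s0 : Sym (Fin N) n := ⟨Finsupp.toMultiset a, hcard⟩
    have hs0 : Nat.Partition.ofSym s0 = ν := by
      apply Nat.Partition.ext
      rw [ofSym_parts_eq_shape, ← h]
      congr 1
      exact Finsupp.toMultiset_toFinsupp a
    rw [Finset.sum_eq_single (⟨s0, hs0⟩ : {s : Sym (Fin N) n // Nat.Partition.ofSym s = ν})]
    · rw [if_pos]
      exact Finsupp.toMultiset_toFinsupp a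
    · intro s _ hs
      rw [if_neg]
      intro hh
      apply hs
      apply Subtype.ext
      apply Subtype.ext
      change s.1.1 = Finsupp.toMultiset a
      rw [← hh, Multiset.toFinsupp_toMultiset]
    · intro hh
      exact absurd (Finset.mem_univ _) hh
  · rw [if_neg h]
    apply Finset.sum_eq_zero
    intro s _
    rw [if_neg]
    intro hh
    apply h
    rw [← hh, ← ofSym_parts_eq_shape, s.2]

/-- The product `∏ g_{ν_i}`. -/
noncomputable def gprod (w : ℕ → K) (M : Multiset ℕ) : SymFun K := (M.map (newt w)).prod

/-- Expansion in monomial symmetric functions. -/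
theorem inVars_eq_sum_msymm [CharZero K] {t : K} (ht : t ≠ 0) {n : ℕ} {f : SymFun K}
    (hf : ∀ N, (inVars K N f).IsHomogeneous n) (N : ℕ) :
    inVars K N f = ∑ ν : n.Partition,
      pairing t f (gprod (fun _ => t⁻¹) ν.parts) • msymm (Fin N) K ν := by
  ext a
  rw [coeff_sum]
  simp only [coeff_smul, coeff_msymm, smul_eq_mul, mul_ite, mul_one, mul_zero]
  by_cases h : ∑ i, a i = n
  · let ν : n.Partition := ⟨shape a, fun hi => shape_pos a hi, by rw [shape_sum, h]⟩
    rw [Finset.sum_eq_single ν]
    · rw [if_pos rfl, coeff_inVars t ht, prod_newt_eq_shape]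
      rfl
    · intro κ _ hκ
      rw [if_neg]
      intro hh
      apply hκ
      apply Nat.Partition.ext
      exact hh.symm
    · intro hh
      exact absurd (Finset.mem_univ _) hh
  · have h1 : coeff a (inVars K N f) = 0 := by
      by_contra hne
      have := hf N hne
      apply h
      rw [← this]
      simp [Finsupp.weight_apply, Finsupp.sum_fintype]
    rw [h1]
    symm
    apply Finset.sum_eq_zero
    intro ν _
    rw [if_neg]
    intro hh
    apply h
    rw [← shape_sum, hh, ν.parts_sum]

end Helper487.Jack
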