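import Pool.Agent.Helper487.Jack.Expand

open MvPolynomial Finset

namespace Helper487.Jack

variable {K : Type*} [Field K]

/-! ### Rows and dominance -/

lemma row_of_lt {n : ℕ} (μ : n.Partition) {i : ℕ} (h : i < Multiset.card μ.parts) :
    0 < row μ i := by
  unfold row
  have h' : i < (μ.parts.sort (· ≥ ·)).length := by rw [Multiset.length_sort]; exact h
  rw [List.getD_eq_getElem _ _ h']
  apply μ.parts_pos
  rw [← Multiset.mem_sort (r := (· ≥ ·))]
  exact List.getElem_mem h'

lemma row_of_le {n : ℕ} (μ : n.Partition) {i : ℕ} (h : Multiset.card μ.parts ≤ i) :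
    row μ i = 0 := by
  unfold row
  apply List.getD_eq_default
  rw [Multiset.length_sort]
  exact h

lemma card_parts_le {n : ℕ} (μ : n.Partition) : Multiset.card μ.parts ≤ n := by
  have h := Multiset.card_nsmul_le_sum (s := μ.parts) (a := 1) (fun x hx => μ.parts_pos hx)
  rw [μ.parts_sum] at h
  simpa using h

lemma row_inj {n : ℕ} {μ ν : n.Partition} (h : ∀ i, row μ i = row ν i) : μ = ν := by
  have hc : Multiset.card μ.parts = Multiset.card ν.parts := by
    rcases lt_trichotomy (Multiset.card μ.parts) (Multiset.card ν.parts) with h1 | h1 | h1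
    · have := row_of_lt ν h1
      rw [← h, row_of_le μ le_rfl] at this
      exact absurd this (lt_irrefl _)
    · exact h1
    · have := row_of_lt μ h1
      rw [h, row_of_le ν le_rfl] at this
      exact absurd this (lt_irrefl _)
  have hl : μ.parts.sort (· ≥ ·) = ν.parts.sort (· ≥ ·) := by
    apply List.ext_getElem
    · rw [Multiset.length_sort, Multiset.length_sort, hc]
    · intro i h1 h2
      have := h i
      unfold row at this
      rwa [List.getD_eq_getElem _ _ h1, List.getD_eq_getElem _ _ h2] at this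
  apply Nat.Partition.ext
  rw [← Multiset.sort_eq (s := μ.parts) (r := (· ≥ ·)), hl, Multiset.sort_eq]

lemma sum_row_aux (L : List ℕ) (k : ℕ) : ∑ i ∈ range k, L.getD i 0 = (L.take k).sum := by
  induction k with
  | zero => simp
  | succ k ih =>
    rw [Finset.sum_range_succ, ih]
    by_cases h : k < L.length
    · rw [List.getD_eq_getElem _ _ h, List.take_add_one, List.sum_append]
      simp [h]
    · rw [List.getD_eq_default _ _ (not_lt.1 h), List.take_of_length_le (not_lt.1 h),
        List.take_of_length_le (by omega), add_zero]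

lemma sum_row {n : ℕ} (μ : n.Partition) {k : ℕ} (h : Multiset.card μ.parts ≤ k) :
    ∑ i ∈ range k, row μ i = n := by
  have h1 : ∑ i ∈ range k, row μ i = ((μ.parts.sort (· ≥ ·)).take k).sum := sum_row_aux _ _
  rw [h1, List.take_of_length_le (by rw [Multiset.length_sort]; exact h),
    ← Multiset.sum_coe, Multiset.sort_eq, μ.parts_sum]

lemma sum_row_le {n : ℕ} (μ : n.Partition) (k : ℕ) : ∑ i ∈ range k, row μ i ≤ n := by
  have h := sum_row μ (k := k + Multiset.card μ.parts) (by omega)
  refine le_trans ?_ h.le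
  apply Finset.sum_le_sum_of_subset
  intro i hi
  rw [Finset.mem_range] at hi ⊢
  omega

lemma row_antitone {n : ℕ} (μ : n.Partition) {i j : ℕ} (h : i ≤ j) : row μ j ≤ row μ i := by
  by_cases hj : j < Multiset.card μ.parts
  · have h1 : i < (μ.parts.sort (· ≥ ·)).length := by rw [Multiset.length_sort]; omega
    have h2 : j < (μ.parts.sort (· ≥ ·)).length := by rw [Multiset.length_sort]; omega
    unfold row
    rw [List.getD_eq_getElem _ _ h1, List.getD_eq_getElem _ _ h2]
    rcases h.lt_or_eq with h3 | h3
    · exact List.pairwise_iff_getElem.1 (Multiset.pairwise_sort (s := μ.parts) (r := (· ≥ ·)))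
        i j h1 h2 h3
    · subst h3
      exact le_rfl
  · rw [row_of_le μ (not_lt.1 hj)]
    exact Nat.zero_le _

lemma card_le_of_sum_eq {n : ℕ} (μ : n.Partition) {k : ℕ} (h : ∑ i ∈ range k, row μ i = n) :
    Multiset.card μ.parts ≤ k := by
  by_contra hlt
  push Not at hlt
  have h1 := sum_row μ (k := k + 1 + Multiset.card μ.parts) (by omega)
  have h2 : ∑ i ∈ range (k + 1), row μ i ≤
      ∑ i ∈ range (k + 1 + Multiset.card μ.parts), row μ i := by
    apply Finset.sum_le_sum_of_subset
    intro i hi
    rw [Finset.mem_range] at hi ⊢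
    omega
  rw [Finset.sum_range_succ, h, h1] at h2
  have := row_of_lt μ hlt
  omega

/-- Dominance can only decrease the number of parts. -/
lemma card_parts_of_domLT {n : ℕ} {κ ν : n.Partition} (h : DomLT κ ν) :
    Multiset.card ν.parts ≤ Multiset.card κ.parts := by
  apply card_le_of_sum_eq
  apply le_antisymm (sum_row_le ν _)
  exact (sum_row κ (k := Multiset.card κ.parts) le_rfl).symm.le.trans (h.2 _)

/-! ### The family and the single functions -/

lemma isLower_sub {n : ℕ} {μ : n.Partition} {f g : SymFun K} (hf : IsUnitriangular μ f)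
    (hg : IsUnitriangular μ g) : IsLower μ (f - g) := by
  obtain ⟨c, hc⟩ := hf
  obtain ⟨d, hd⟩ := hg
  refine ⟨fun ν => c ν - d ν, fun N => ?_⟩
  rw [map_sub, hc, hd, add_sub_add_left_eq_sub, ← Finset.sum_sub_distrib]
  apply Finset.sum_congr rfl
  intro ν _
  rw [sub_smul]

open Classical in
theorem pairing_family_eq_zero [CharZero K] {t : K} {n : ℕ} {P : n.Partition → SymFun K}
    (hP : IsJackFamily t P) (μ : n.Partition) (S : Finset n.Partition)
    (hS : ∀ ν ∈ S, ∀ κ, DomLT κ ν → κ ∈ S) (hμ : μ ∉ S) (c : n.Partition → K) (g : SymFun K)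
    (hg : ∀ N, inVars K N g = ∑ ν ∈ S, c ν • msymm (Fin N) K ν) :
    pairing t (P μ) g = 0 := by
  induction hcard : S.card generalizing S c g with
  | zero =>
    have : S = ∅ := Finset.card_eq_zero.1 hcard
    subst this
    have : g = 0 := eq_zero_of_inVars (fun N => by rw [hg]; simp)
    rw [this, pairing_zero_right]
  | succ m ih =>
    have hne : S.Nonempty := by
      rw [← Finset.card_pos, hcard]
      omega
    obtain ⟨ν, hν, hmax⟩ := Finset.exists_max_image S
      (fun κ => ∑ k ∈ range (n + 1), ∑ i ∈ range k, row κ i) hne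
    obtain ⟨d, hd⟩ := hP.1 ν
    have hdown : ∀ κ ∈ S.erase ν, ∀ κ', DomLT κ' κ → κ' ∈ S.erase ν := by
      intro κ hκ κ' hlt
      rw [Finset.mem_erase] at hκ ⊢
      refine ⟨?_, hS κ hκ.2 κ' hlt⟩
      rintro rfl
      apply hlt.1
      have h1 := hmax κ hκ.2
      have h2 : ∀ k ∈ range (n + 1), ∑ i ∈ range k, row κ' i ≤ ∑ i ∈ range k, row κ i :=
        fun k _ => hlt.2 k
      have h3 : ∑ k ∈ range (n + 1), ∑ i ∈ range k, row κ' i =
          ∑ k ∈ range (n + 1), ∑ i ∈ range k, row κ i :=
        le_antisymm (Finset.sum_le_sum h2) h1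
      have h4 := (Finset.sum_eq_sum_iff_of_le h2).1 h3
      apply row_inj
      intro i
      by_cases hi : i < n
      · have e1 := h4 i (Finset.mem_range.2 (by omega))
        have e2 := h4 (i + 1) (Finset.mem_range.2 (by omega))
        rw [Finset.sum_range_succ, Finset.sum_range_succ, e1] at e2
        omega
      · rw [row_of_le κ' ((card_parts_le κ').trans (not_lt.1 hi)),
          row_of_le κ ((card_parts_le κ).trans (not_lt.1 hi))]
    have hsub : (Finset.univ.filter (fun κ : n.Partition => DomLT κ ν)) ⊆ S.erase ν := by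
      intro κ hκ
      rw [Finset.mem_filter] at hκ
      rw [Finset.mem_erase]
      exact ⟨hκ.2.1, hS ν hν κ hκ.2⟩
    have hg' : ∀ N, inVars K N (g - c ν • P ν) = ∑ κ ∈ S.erase ν,
        (c κ - c ν * (if DomLT κ ν then d κ else 0)) • msymm (Fin N) K κ := by
      intro N
      have e1 : ∑ κ ∈ Finset.univ.filter (fun κ : n.Partition => DomLT κ ν),
          d κ • msymm (Fin N) K κ =
          ∑ κ ∈ S.erase ν, (if DomLT κ ν then d κ else 0) • msymm (Fin N) K κ := by
        rw [Finset.sum_filter]
        rw [← Finset.sum_subset (Finset.subset_univ (S.erase ν))]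
        · apply Finset.sum_congr rfl
          intro κ _
          split_ifs <;> simp
        · intro κ _ hκ
          rw [if_neg]
          intro hh
          exact hκ (hsub (Finset.mem_filter.2 ⟨Finset.mem_univ _, hh⟩))
      rw [map_sub, map_smul, hg, hd, e1, ← Finset.add_sum_erase S _ hν, smul_add,
        add_sub_add_left_eq_sub, Finset.smul_sum, ← Finset.sum_sub_distrib]
      apply Finset.sum_congr rfl
      intro κ _
      rw [sub_smul, mul_smul]
    have hrec := ih (S.erase ν) hdown (fun h => hμ (Finset.mem_of_mem_erase h))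
      (fun κ => c κ - c ν * (if DomLT κ ν then d κ else 0)) (g - c ν • P ν) hg'
      (by rw [Finset.card_erase_of_mem hν, hcard]; rfl)
    have hne' : μ ≠ ν := fun h => hμ (h ▸ hν)
    rw [pairing_sub_right, pairing_smul_right, hP.2 μ ν hne', mul_zero, sub_zero] at hrec
    exact hrec

/-- Every member of the Jack family is the Jack function in the sense of `IsJack`. -/
theorem isJack_of_family [CharZero K] {t : K} {n : ℕ} {P : n.Partition → SymFun K}
    (hP : IsJackFamily t P) (μ : n.Partition) : IsJack t μ (P μ) := by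
  classical
  refine ⟨hP.1 μ, fun g hg => ?_⟩
  obtain ⟨c, hc⟩ := hg
  apply pairing_family_eq_zero hP μ (Finset.univ.filter (fun ν : n.Partition => DomLT ν μ)) ?_ ?_
    c g
  · intro N
    rw [hc N]
  · intro ν hν κ hκ
    rw [Finset.mem_filter] at hν ⊢
    refine ⟨Finset.mem_univ _, ?_, fun k => (hκ.2 k).trans (hν.2.2 k)⟩
    rintro rfl
    apply hκ.1
    apply row_inj
    have h5 : ∀ k, ∑ i ∈ range k, row κ i = ∑ i ∈ range k, row ν i :=
      fun k => le_antisymm (hκ.2 k) (hν.2.2 k)
    intro i
    have e1 := h5 i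
    have e2 := h5 (i + 1)
    rw [Finset.sum_range_succ, Finset.sum_range_succ, e1] at e2
    omega
  · rw [Finset.mem_filter]
    rintro ⟨_, h, _⟩
    exact h rfl

/-- Positive definiteness: over a field embedded in `ℝ` so that `t > 0`. -/
theorem eq_zero_of_pairing_self {t : K} (φ : K →+* ℝ) (hφ : 0 < φ t) {f : SymFun K}
    (h : pairing t f f = 0) : f = 0 := by
  have h1 : φ (pairing t f f) = ∑ d ∈ f.support, (φ (coeff d f)) ^ 2 *
      ((zee d : ℝ) * φ t ^ len d) := by
    unfold pairing
    rw [map_sum]
    apply Finset.sum_congr rfl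
    intro d _
    rw [map_mul, map_mul, map_mul, map_pow, map_natCast]
    ring
  rw [h, map_zero] at h1
  have hpos : ∀ d : ℕ →₀ ℕ, 0 < (zee d : ℝ) * φ t ^ len d := by
    intro d
    have := zee_pos d
    positivity
  have h2 := (Finset.sum_eq_zero_iff_of_nonneg
    (fun d _ => mul_nonneg (sq_nonneg (φ (coeff d f))) (hpos d).le)).1 h1.symm
  ext d
  rw [coeff_zero]
  by_contra hd
  have h3 := h2 d (mem_support_iff.2 hd)
  rcases mul_eq_zero.1 h3 with h4 | h4
  · apply hd
    have : φ (coeff d f) = 0 := by simpa using h4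
    exact (map_eq_zero φ).1 this
  · exact absurd h4 (hpos d).ne'

theorem isJack_unique {t : K} (φ : K →+* ℝ) (hφ : 0 < φ t) {n : ℕ} {μ : n.Partition}
    {f g : SymFun K} (hf : IsJack t μ f) (hg : IsJack t μ g) : f = g := by
  have hl := isLower_sub hf.1 hg.1
  have h1 := hf.2 _ hl
  have h2 := hg.2 _ hl
  have h3 : pairing t (f - g) (f - g) = 0 := by
    rw [pairing_sub_left, h1, h2, sub_zero]
  exact sub_eq_zero.1 (eq_zero_of_pairing_self φ hφ h3)

end Helper487.Jack
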