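import Pool.Agent.Helper487.Jack.Poly

open Finset

namespace Helper487.Jack

/-- A positive real number that is transcendental over `ℚ`. -/
lemma exists_transcendental_pos : ∃ τ : ℝ, 0 < τ ∧ Transcendental ℚ τ := by
  have h1 : {x : ℝ | IsAlgebraic ℚ x}.Countable := Algebraic.countable ℚ ℝ
  have h2 : ¬ (Set.Ioi (0 : ℝ)).Countable := by
    intro h
    have := Cardinal.mk_Ioi_real 0
    have h3 := h.le_aleph0
    rw [this] at h3
    exact absurd h3 (not_le.2 Cardinal.aleph0_lt_continuum)
  by_contra hne
  push Not at hne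
  apply h2
  apply h1.mono
  intro x hx
  have := hne x hx
  rw [Transcendental, not_not] at this
  exact this

lemma aeval_X_eq (p : Polynomial ℚ) :
    Polynomial.aeval (RatFunc.X : RatFunc ℚ) p = algebraMap (Polynomial ℚ) (RatFunc ℚ) p := by
  induction p using Polynomial.induction_on' with
  | add p q hp hq => rw [map_add, map_add, hp, hq]
  | monomial n a =>
    rw [← Polynomial.C_mul_X_pow_eq_monomial, map_mul, map_mul, map_pow, map_pow,
      Polynomial.aeval_X, Polynomial.aeval_C, RatFunc.algebraMap_X]
    congr 1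
    exact (eq_ratCast (algebraMap ℚ (RatFunc ℚ)) a).trans
      (eq_ratCast ((algebraMap (Polynomial ℚ) (RatFunc ℚ)).comp Polynomial.C) a).symm

lemma aeval_X_injective :
    Function.Injective (Polynomial.aeval (R := ℚ) (RatFunc.X : RatFunc ℚ)) := by
  intro p q h
  rw [aeval_X_eq, aeval_X_eq] at h
  exact RatFunc.algebraMap_injective ℚ h

/-- An embedding of `ℚ(α)` in `ℝ` with `α > 0`. -/
lemma exists_embedding : ∃ φ : RatFunc ℚ →+* ℝ, 0 < φ RatFunc.X := by
  obtain ⟨τ, hτ, ht⟩ := exists_transcendental_pos
  have hinj : Function.Injective (Polynomial.aeval (R := ℚ) τ).toRingHom := by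
    intro p q h
    exact (transcendental_iff_injective.1 ht) h
  refine ⟨IsFractionRing.lift hinj, ?_⟩
  have : IsFractionRing.lift hinj (RatFunc.X : RatFunc ℚ) = τ := by
    rw [← RatFunc.algebraMap_X, IsFractionRing.lift_algebraMap]
    simp
  rw [this]
  exact hτ

end Helper487.Jack
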