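import Pool.Agent.Helper487.Jack.Poly

open Finset

namespace Helper487.Jack

/-- The coordinates of the Schur coefficient of `J̃_{(14,14)}` at `(2^14)` in the basis
`(α)_{k+1}`, `0 ≤ k < 28`. -/
def b14 : List ℤ := [0, 0, 0, 0, 0, 0, 175344113533306798080000, 6382525732612367450112000, 71628744778792493580288000, 369197933851436906151936000, 990965787569450161717248000, 1519304393080076609470464000, 1433351114914489744464691200, 881200159323633761336524800, 368654666122911450291609600, 108422549283963985226956800, 22966839145438291937433600, 3566314501989157154396160, 410881432660539990589440, 35371825154559469255680, 2280173217334262490240, 109709477845871904000, 3901689134514243072, 100668778465102848, 1824285982611456, 21931269255168, 156515573760, 500318208]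

set_option maxRecDepth 100000 in
lemma EZ14 : ∀ κ < 43, ∀ J < 29, 14 < J → ∀ r < 29, r + J ≤ 28 → EZ 14 κ J r = 0 := by
  decide +kernel

set_option maxRecDepth 100000 in
lemma N2Z14 : ∀ κ < 43, N2Z 14 κ = vZ 14 κ := by
  decide +kernel

set_option maxRecDepth 100000 in
lemma cZ14 : ∀ κ < 43, cZ 14 κ =
    ∑ k ∈ range 28, b14.getD k 0 * ((κ.descFactorial (k + 1) : ℕ) : ℤ) := by
  decide +kernel

end Helper487.Jack
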