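import Pool.Agent.Helper487.Jack.Final8
import Pool.Agent.Helper487.Jack.Num14

open Finset

namespace Helper487.Jack

lemma hE14 : ∀ J r, 14 < J → r + J ≤ 2 * 14 → EP 14 J r = 0 := by
  intro J r h1 h2
  apply EP_eq_zero h2
  intro κ hκ
  exact EZ14 κ (by omega) J (by omega) h1 r (by omega) h2

lemma hN14 : N2P 14 = vP 14 := N2P_eq (fun κ hκ => by
  have := N2Z14 κ (by omega)
  exact_mod_cast this)

lemma cP14_eq : cP 14 = ∑ k ∈ range 28, Polynomial.C ((b14.getD k 0 : ℤ) : ℚ) * fallP k := by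
  rw [← sub_eq_zero]
  have hd : (cP 14 - ∑ k ∈ range 28, Polynomial.C ((b14.getD k 0 : ℤ) : ℚ) * fallP k).natDegree
      ≤ 42 := by
    refine (Polynomial.natDegree_sub_le_of_le (natDegree_cP_le 14)
      (Polynomial.natDegree_sum_le_of_forall_le (n := 42) _ _ (fun k hk => ?_))).trans (by simp)
    rw [Finset.mem_range] at hk
    exact (Polynomial.natDegree_C_mul_le _ _).trans ((natDegree_fallP_le k).trans (by omega))
  apply eq_zero_of_eval_nat hd
  intro κ hκ
  rw [Polynomial.eval_sub, cP_eval, cZ14 κ (by omega), Polynomial.eval_finsetSum, sub_eq_zero]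
  push_cast
  apply Finset.sum_congr rfl
  intro k _
  rw [Polynomial.eval_mul, Polynomial.eval_C, fallP_eval]

lemma aeval_fallP (k : ℕ) : Polynomial.aeval (RatFunc.X : RatFunc ℚ) (fallP k) =
    ∏ j ∈ range (k + 1), ((RatFunc.X : RatFunc ℚ) - j) := by
  unfold fallP
  rw [map_prod]
  simp only [map_sub, Polynomial.aeval_X, map_natCast]

lemma nonreal14 : ∃ z : ℂ, z.im ≠ 0 ∧
    ∑ k ∈ range 28, (((b14.getD k 0 : ℤ) : ℚ) : ℂ) * z ^ k = 0 := by
  apply exists_nonreal_root_of_coeffs 28 (fun k => ((b14.getD k 0 : ℤ) : ℚ)) (-1 / 5)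
  simp only [Finset.sum_range_succ, Finset.sum_range_zero, b14, List.getD_cons_zero,
    List.getD_cons_succ]
  norm_num

end Helper487.Jack
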