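import Mathlib

open Polynomial

namespace Helper487.Jack

lemma laguerre_prod (R : Multiset ℝ) (x : ℝ) :
    0 ≤ ((derivative (R.map (fun r => X - C r)).prod).eval x) ^ 2 -
      ((R.map (fun r => X - C r)).prod).eval x *
        (derivative (derivative (R.map (fun r => X - C r)).prod)).eval x := by
  induction R using Multiset.induction_on with
  | empty => simp
  | cons r R ih =>
    rw [Multiset.map_cons, Multiset.prod_cons]
    set g := (R.map (fun r => X - C r)).prod with hg
    have h1 : (derivative ((X - C r) * g)).eval x = g.eval x + (x - r) * (derivative g).eval x := by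
      simp
    have h2 : (derivative (derivative ((X - C r) * g))).eval x =
        2 * (derivative g).eval x + (x - r) * (derivative (derivative g)).eval x := by
      simp
      ring
    have h3 : ((X - C r) * g).eval x = (x - r) * g.eval x := by simp
    rw [h1, h2, h3]
    have : (eval x g + (x - r) * eval x (derivative g)) ^ 2 -
        (x - r) * eval x g * (2 * eval x (derivative g) +
          (x - r) * eval x (derivative (derivative g))) =
        (g.eval x) ^ 2 + (x - r) ^ 2 * ((derivative g).eval x ^ 2 -
          g.eval x * (derivative (derivative g)).eval x) := by ring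
    rw [this]
    positivity

/-- A nonzero real polynomial violating the Laguerre inequality has a non-real zero. -/
theorem exists_nonreal_root (p : ℝ[X]) (x : ℝ)
    (h : ((derivative p).eval x) ^ 2 - p.eval x * (derivative (derivative p)).eval x < 0) :
    ∃ z : ℂ, z.im ≠ 0 ∧ (p.map (algebraMap ℝ ℂ)).eval z = 0 := by
  by_contra hcon
  push Not at hcon
  have hp : p ≠ 0 := by
    rintro rfl
    simp at h
  set q := p.map (algebraMap ℝ ℂ) with hq
  have hq0 : q ≠ 0 := by
    rw [hq, Ne, Polynomial.map_eq_zero]
    exact hp
  have hsplit : q = C q.leadingCoeff * (q.roots.map (fun r => X - C r)).prod :=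
    (IsAlgClosed.splits q).eq_prod_roots
  have hreal : ∀ r ∈ q.roots, ((r.re : ℝ) : ℂ) = r := by
    intro r hr
    have h1 : q.eval r = 0 := (mem_roots hq0).1 hr
    have h2 : r.im = 0 := by
      by_contra h3
      exact hcon r h3 h1
    apply Complex.ext
    · simp
    · simp [h2]
  have hlc : q.leadingCoeff = ((p.leadingCoeff : ℝ) : ℂ) := by
    rw [hq, leadingCoeff_map]
    rfl
  set R : Multiset ℝ := q.roots.map Complex.re with hR
  have hroots : (q.roots.map (fun r => X - C r)).prod =
      ((R.map (fun r => X - C r)).prod).map (algebraMap ℝ ℂ) := by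
    rw [Polynomial.map_multiset_prod, hR, Multiset.map_map, Multiset.map_map]
    congr 1
    apply Multiset.map_congr rfl
    intro r hr
    simp only [Function.comp_apply, Polynomial.map_sub, Polynomial.map_X, Polynomial.map_C]
    congr 2
    exact (hreal r hr).symm
  have hpp : p = C p.leadingCoeff * (R.map (fun r => X - C r)).prod := by
    apply Polynomial.map_injective (algebraMap ℝ ℂ) (algebraMap ℝ ℂ).injective
    rw [Polynomial.map_mul, ← hroots, Polynomial.map_C]
    rw [← hq]
    conv_lhs => rw [hsplit]
    rw [hlc]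
    rfl
  set g := (R.map (fun r => X - C r)).prod with hg
  have h4 := laguerre_prod R x
  rw [← hg] at h4
  rw [hpp] at h
  simp only [derivative_mul, derivative_C, zero_mul, zero_add, eval_mul, eval_C] at h
  have h5 : (p.leadingCoeff * eval x (derivative g)) ^ 2 -
      p.leadingCoeff * eval x g * (p.leadingCoeff * eval x (derivative (derivative g))) =
      p.leadingCoeff ^ 2 * (eval x (derivative g) ^ 2 -
        eval x g * eval x (derivative (derivative g))) := by ring
  rw [h5] at h
  exact absurd h (not_lt.2 (mul_nonneg (sq_nonneg _) h4))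

/-- The same for a polynomial given by rational coefficients. -/
theorem exists_nonreal_root_of_coeffs (n : ℕ) (a : ℕ → ℚ) (x : ℚ)
    (h : (∑ k ∈ Finset.range n, a k * k * x ^ (k - 1)) ^ 2 -
      (∑ k ∈ Finset.range n, a k * x ^ k) *
        (∑ k ∈ Finset.range n, a k * k * ((k - 1 : ℕ) : ℚ) * x ^ (k - 2)) < 0) :
    ∃ z : ℂ, z.im ≠ 0 ∧ ∑ k ∈ Finset.range n, (a k : ℂ) * z ^ k = 0 := by
  set p : ℝ[X] := ∑ k ∈ Finset.range n, C (a k : ℝ) * X ^ k with hp
  have e0 : p.eval (x : ℝ) = ((∑ k ∈ Finset.range n, a k * x ^ k : ℚ) : ℝ) := by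
    rw [hp, eval_finsetSum]
    push_cast
    apply Finset.sum_congr rfl
    intro k _
    simp
  have e1 : (derivative p).eval (x : ℝ) =
      ((∑ k ∈ Finset.range n, a k * k * x ^ (k - 1) : ℚ) : ℝ) := by
    rw [hp, derivative_sum, eval_finsetSum]
    push_cast
    apply Finset.sum_congr rfl
    intro k _
    rw [derivative_C_mul_X_pow]
    simp
  have e2 : (derivative (derivative p)).eval (x : ℝ) =
      ((∑ k ∈ Finset.range n, a k * k * ((k - 1 : ℕ) : ℚ) * x ^ (k - 2) : ℚ) : ℝ) := by
    rw [hp, derivative_sum, derivative_sum, eval_finsetSum]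
    push_cast
    apply Finset.sum_congr rfl
    intro k _
    rw [derivative_C_mul_X_pow, derivative_C_mul_X_pow]
    have : k - 1 - 1 = k - 2 := by omega
    rw [this]
    simp
  have hlt : ((derivative p).eval (x : ℝ)) ^ 2 - p.eval (x : ℝ) *
      (derivative (derivative p)).eval (x : ℝ) < 0 := by
    rw [e0, e1, e2]
    exact_mod_cast h
  obtain ⟨z, hz, hz0⟩ := exists_nonreal_root p x hlt
  refine ⟨z, hz, ?_⟩
  rw [← hz0, hp, Polynomial.map_sum, eval_finsetSum]
  apply Finset.sum_congr rfl
  intro k _
  simp

end Helper487.Jack
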