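import Pool.Agent.Helper487.Jack.Poly

open Finset

namespace Helper487.Jack

/-- The coordinates of the Schur coefficient of `J̃_{(8,8)}` at `(2^8)` in the basis
`binom(α + k, 16)`. -/
def a8 : List ℤ := [0, 597793996800, 73236035174400, 2004440894668800, 19314619527168000, 79659352571904000, 154554571254988800, 146689299490406400, 68260823569612800, 15222991343616000, 1568059637760000, 68516388864000, 804722688000, 0, 0, 0]

set_option maxRecDepth 100000 in
lemma EZ8 : ∀ κ < 25, ∀ J < 17, 8 < J → ∀ r < 17, r + J ≤ 16 → EZ 8 κ J r = 0 := by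
  decide +kernel

set_option maxRecDepth 100000 in
lemma N2Z8 : ∀ κ < 25, N2Z 8 κ = vZ 8 κ := by
  decide +kernel

set_option maxRecDepth 100000 in
lemma cZ8 : ∀ κ < 25, cZ 8 κ =
    ∑ k ∈ range 16, a8.getD k 0 * (((κ + k).descFactorial 16 / (16).factorial : ℕ) : ℤ) := by
  decide +kernel

end Helper487.Jack
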