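import Pool.Agent.Helper487.Jack.Main
import Pool.Agent.Helper487.Jack.Field
import Pool.Agent.Helper487.Jack.Coord
import Pool.Agent.Helper487.Jack.Num8
import Pool.Agent.Helper487.Jack.Laguerre

open Finset

namespace Helper487.Jack

lemma hE8 : ∀ J r, 8 < J → r + J ≤ 2 * 8 → EP 8 J r = 0 := by
  intro J r h1 h2
  apply EP_eq_zero h2
  intro κ hκ
  exact EZ8 κ (by omega) J (by omega) h1 r (by omega) h2

lemma hN8 : N2P 8 = vP 8 := N2P_eq (fun κ hκ => by
  have := N2Z8 κ (by omega)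
  exact_mod_cast this)

lemma cP8_eq : cP 8 = ∑ k ∈ range 16, Polynomial.C ((a8.getD k 0 : ℤ) : ℚ) * binP 16 k := by
  rw [← sub_eq_zero]
  have hd : (cP 8 - ∑ k ∈ range 16, Polynomial.C ((a8.getD k 0 : ℤ) : ℚ) * binP 16 k).natDegree
      ≤ 24 := by
    refine (Polynomial.natDegree_sub_le_of_le (natDegree_cP_le 8)
      (Polynomial.natDegree_sum_le_of_forall_le (n := 24) _ _ (fun k _ => ?_))).trans (by simp)
    exact (Polynomial.natDegree_C_mul_le _ _).trans ((natDegree_binP_le 16 k).trans (by norm_num))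
  apply eq_zero_of_eval_nat hd
  intro κ hκ
  rw [Polynomial.eval_sub, cP_eval, cZ8 κ (by omega), Polynomial.eval_finsetSum, sub_eq_zero]
  push_cast
  apply Finset.sum_congr rfl
  intro k _
  rw [Polynomial.eval_mul, Polynomial.eval_C, binP_eval]
  rfl

lemma vP_ne_zero (m : ℕ) : vP m ≠ 0 := by
  intro h
  have h1 := congrArg (Polynomial.eval ((1 : ℕ) : ℚ)) h
  rw [vP_eval, Polynomial.eval_zero] at h1
  have h2 : 0 < vZ m 1 := by
    unfold vZ
    apply Finset.prod_pos
    intro l _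
    positivity
  have h3 : ((vZ m 1 : ℕ) : ℚ) ≠ 0 := by exact_mod_cast h2.ne'
  exact h3 (by exact_mod_cast h1)

lemma aeval_vP_ne_zero (m : ℕ) :
    Polynomial.aeval (RatFunc.X : RatFunc ℚ) (vP m) ≠ 0 := by
  intro h
  apply vP_ne_zero m
  apply aeval_X_injective
  rw [h, map_zero]

lemma aeval_binP (n k : ℕ) : Polynomial.aeval (RatFunc.X : RatFunc ℚ) (binP n k) =
    (∏ j ∈ range n, ((RatFunc.X : RatFunc ℚ) + k - j)) / (n.factorial : RatFunc ℚ) := by
  unfold binP
  rw [map_mul, Polynomial.aeval_C, map_prod, map_inv₀, map_natCast]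
  simp only [map_sub, map_add, Polynomial.aeval_X, map_natCast]
  rw [div_eq_inv_mul]

lemma nonreal8 : ∃ z : ℂ, z.im ≠ 0 ∧
    ∑ k ∈ range 16, (((a8.getD k 0 : ℤ) : ℚ) : ℂ) * z ^ k = 0 := by
  apply exists_nonreal_root_of_coeffs 16 (fun k => ((a8.getD k 0 : ℤ) : ℚ)) (-10)
  simp only [Finset.sum_range_succ, Finset.sum_range_zero, a8, List.getD_cons_zero,
    List.getD_cons_succ]
  norm_num

end Helper487.Jack
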