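import Pool.Agent.Helper487.Jack.TwoRow

open MvPolynomial Finset

namespace Helper487.Jack

variable {K : Type*} [Field K]

/-! ### Rectangles -/

lemma row_replicate {n k a : ℕ} {μ : n.Partition} (hμ : μ.parts = Multiset.replicate k a)
    (i : ℕ) : row μ i = if i < k then a else 0 := by
  have h : μ.parts.sort (· ≥ ·) = List.replicate k a := by
    apply List.eq_replicate_iff.2
    refine ⟨by rw [Multiset.length_sort, hμ, Multiset.card_replicate], fun b hb => ?_⟩
    rw [Multiset.mem_sort, hμ] at hb
    exact Multiset.eq_of_mem_replicate hb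
  unfold row
  rw [h]
  by_cases hi : i < k
  · rw [if_pos hi, List.getD_eq_getElem _ _ (by simpa using hi)]
    simp
  · rw [if_neg hi, List.getD_eq_default _ _ (by simpa using hi)]

lemma row_two {n m : ℕ} {μ : n.Partition} (hμ : μ.parts = Multiset.replicate 2 m) (i : ℕ) :
    row μ i = if i < 2 then m else 0 := row_replicate hμ i

/-- Partitions below `(m, m)` have at least three parts. -/
lemma three_le_card {n m : ℕ} (hn : n = 2 * m) {μ : n.Partition}
    (hμ : μ.parts = Multiset.replicate 2 m) {ν : n.Partition} (h : DomLT ν μ) :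
    3 ≤ Multiset.card ν.parts := by
  by_contra hlt
  have h1 := sum_row ν (k := 2) (by omega)
  rw [Finset.sum_range_succ, Finset.sum_range_succ, Finset.sum_range_zero] at h1
  have h2 := h.2 1
  rw [Finset.sum_range_succ, Finset.sum_range_zero, Finset.sum_range_succ,
    Finset.sum_range_zero, row_two hμ, if_pos (by omega)] at h2
  have h3 := row_antitone ν (i := 0) (j := 1) (by omega)
  apply h.1
  apply row_inj
  intro i
  rw [row_two hμ]
  rcases i with _ | _ | i
  · simp
    omega
  · simp
    omega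
  · rw [if_neg (by omega), row_of_le ν (by omega)]

/-- A partition of `2m` whose first part is at most `m` is `≤ (m, m)`. -/
lemma domLT_of_row_le {n m : ℕ} {μ : n.Partition}
    (hμ : μ.parts = Multiset.replicate 2 m) {ν : n.Partition} (hne : ν ≠ μ)
    (h : row ν 0 ≤ m) : DomLT ν μ := by
  refine ⟨hne, fun k => ?_⟩
  rcases k with _ | _ | k
  · simp
  · rw [Finset.sum_range_succ, Finset.sum_range_zero, Finset.sum_range_succ,
      Finset.sum_range_zero, row_two hμ, if_pos (by omega)]
    omega
  · refine (sum_row_le ν _).trans ?_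
    have hc : Multiset.card μ.parts ≤ k + 1 + 1 := by
      rw [hμ, Multiset.card_replicate]
      omega
    exact (sum_row μ hc).symm.le

lemma gprod_cons (w : ℕ → K) (J : ℕ) (M : Multiset ℕ) :
    gprod w (J ::ₘ M) = newt w J * gprod w M := by
  unfold gprod
  rw [Multiset.map_cons, Multiset.prod_cons]

/-! ### The two-row Jack function is `v⁻¹ J̃` -/

theorem isJack_JG [CharZero K] [Algebra ℚ K] {κ : K} (hκ : κ ≠ 0) {m : ℕ} (hm : 0 < m)
    {n : ℕ} (hn : n = 2 * m) {μ : n.Partition} (hμ : μ.parts = Multiset.replicate 2 m)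
    (hE : ∀ J r, m < J → r + J ≤ 2 * m → EP m J r = 0) (hN2 : N2P m = vP m)
    (hv : Polynomial.aeval κ (vP m) ≠ 0) :
    IsJack κ⁻¹ μ ((Polynomial.aeval κ (vP m))⁻¹ • JG κ m) := by
  classical
  have ht : κ⁻¹ ≠ 0 := inv_ne_zero hκ
  have hwκ : (fun _ : ℕ => (κ⁻¹)⁻¹) = (fun _ : ℕ => κ) := by
    funext _
    exact inv_inv κ
  set v : K := Polynomial.aeval κ (vP m) with hvdef
  have hhom : ∀ N, (inVars K N (v⁻¹ • JG κ m)).IsHomogeneous n := by
    intro N
    rw [map_smul, hn]
    have := (isHomogeneous_C (Fin N) v⁻¹).mul (isHomogeneous_JG κ m N)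
    rwa [zero_add, ← smul_eq_C_mul] at this
  -- coefficients of the expansion
  have hbig : ∀ ν : n.Partition, m < row ν 0 →
      pairing κ⁻¹ (v⁻¹ • JG κ m) (gprod (fun _ => κ) ν.parts) = 0 := by
    intro ν hν
    have hcard : 0 < Multiset.card ν.parts := by
      by_contra h0
      rw [row_of_le ν (by omega)] at hν
      omega
    have hmem : row ν 0 ∈ ν.parts := by
      unfold row
      have h' : 0 < (ν.parts.sort (· ≥ ·)).length := by rw [Multiset.length_sort]; exact hcard
      rw [List.getD_eq_getElem _ _ h', ← Multiset.mem_sort (r := (· ≥ ·))]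
      exact List.getElem_mem h'
    obtain ⟨M, hM⟩ := Multiset.exists_cons_of_mem hmem
    rw [hM, gprod_cons, pairing_smul_left,
      pairing_newt_mul κ⁻¹ (fun _ => κ) (fun _ => (1 : K)) (fun _ => (inv_mul_cancel₀ hκ).symm),
      coeff_addVar_JG κ hν hE, pairing_zero_left, mul_zero]
  have hself : pairing κ⁻¹ (v⁻¹ • JG κ m) (gprod (fun _ => κ) μ.parts) = 1 := by
    rw [hμ]
    have : gprod (fun _ => κ) (Multiset.replicate 2 m) =
        newt (fun _ => κ) m * newt (fun _ => κ) m := by
      unfold gprod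
      rw [Multiset.map_replicate, Multiset.prod_replicate, pow_two]
    rw [this, pairing_smul_left, pairing_JG_mm κ hκ, hN2, ← hvdef, inv_mul_cancel₀ hv]
  constructor
  · refine ⟨fun ν => pairing κ⁻¹ (v⁻¹ • JG κ m) (gprod (fun _ => κ) ν.parts), fun N => ?_⟩
    rw [inVars_eq_sum_msymm ht hhom N, hwκ, ← Finset.add_sum_erase _ _ (Finset.mem_univ μ),
      hself, one_smul]
    congr 1
    symm
    apply Finset.sum_subset
    · intro ν hν
      rw [Finset.mem_filter] at hν
      rw [Finset.mem_erase]
      exact ⟨hν.2.1, Finset.mem_univ _⟩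
    · intro ν hν hν2
      rw [Finset.mem_erase] at hν
      rw [Finset.mem_filter, not_and] at hν2
      have h1 := hν2 (Finset.mem_univ _)
      have h2 : m < row ν 0 := by
        by_contra h3
        exact h1 (domLT_of_row_le hμ hν.1 (not_lt.1 h3))
      beta_reduce
      rw [hbig ν h2, zero_smul]
  · intro g hg
    obtain ⟨c, hc⟩ := hg
    have key : ∀ r, pairing κ⁻¹ g (newt (fun _ => κ) r * newt (fun _ => κ) (2 * m - r)) = 0 := by
      intro r
      have h1 := coeff_inVars κ⁻¹ ht 2 g (Finsupp.equivFunOnFinite.symm ![r, 2 * m - r])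
      rw [hwκ] at h1
      have h2 : (∏ i : Fin 2, newt (fun _ => κ)
          ((Finsupp.equivFunOnFinite.symm ![r, 2 * m - r] : Fin 2 →₀ ℕ) i)) =
          newt (fun _ => κ) r * newt (fun _ => κ) (2 * m - r) := by
        rw [Fin.prod_univ_two]
        rfl
      rw [h2] at h1
      rw [← h1, hc 2, coeff_sum]
      apply Finset.sum_eq_zero
      intro ν hν
      rw [Finset.mem_filter] at hν
      rw [coeff_smul, coeff_msymm, if_neg, smul_zero]
      intro hsh
      have h3 := three_le_card hn hμ hν.2
      rw [← hsh] at h3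
      have h4 := card_shape_le (Finsupp.equivFunOnFinite.symm ![r, 2 * m - r] : Fin 2 →₀ ℕ)
      omega
    rw [pairing_comm, pairing_smul_right]
    unfold JG
    rw [pairing_C_mul_right, pairing_sum_right]
    rw [Finset.sum_eq_zero, mul_zero, mul_zero]
    intro r _
    rw [pairing_C_mul_right, key, mul_zero]

/-! ### The normalisation -/

lemma col_two {n m : ℕ} (hn : n = 2 * m) {μ : n.Partition}
    (hμ : μ.parts = Multiset.replicate 2 m) {j : ℕ} (hj : j < m) : col μ j = 2 := by
  unfold col
  have : ((Finset.range n).filter fun i => j < row μ i) = range 2 := by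
    ext i
    rw [Finset.mem_filter, Finset.mem_range, Finset.mem_range, row_two hμ]
    by_cases hi : i < 2
    · rw [if_pos hi]
      omega
    · rw [if_neg hi]
      omega
  rw [this, Finset.card_range]

lemma hookNorm_two [CharZero K] [Algebra ℚ K] {κ : K} (hκ : κ ≠ 0) {m : ℕ} (hm : 0 < m)
    {n : ℕ} (hn : n = 2 * m) {μ : n.Partition} (hμ : μ.parts = Multiset.replicate 2 m) :
    κ ^ n * hookNorm κ⁻¹ μ = Polynomial.aeval κ (vP m) := by
  have h1 : hookNorm κ⁻¹ μ = ∏ i ∈ range 2, ∏ j ∈ range (row μ i),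
      (κ⁻¹ * ((row μ i - (j + 1) : ℕ) : K) + ((col μ j - (i + 1) : ℕ) : K) + 1) := by
    unfold hookNorm
    symm
    apply Finset.prod_subset
    · intro i hi
      rw [Finset.mem_range] at hi ⊢
      omega
    · intro i _ hi
      rw [Finset.mem_range] at hi
      rw [row_two hμ, if_neg hi]
      simp
  rw [h1, Finset.prod_range_succ, Finset.prod_range_succ, Finset.prod_range_zero, one_mul,
    row_two hμ, row_two hμ, if_pos (by omega), if_pos (by omega), ← Finset.prod_mul_distrib]
  have h2 : ∀ j ∈ range m, (κ⁻¹ * ((m - (j + 1) : ℕ) : K) + ((col μ j - (0 + 1) : ℕ) : K) + 1) *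
      (κ⁻¹ * ((m - (j + 1) : ℕ) : K) + ((col μ j - (1 + 1) : ℕ) : K) + 1) =
      (κ⁻¹ * κ⁻¹) * ((((m - 1 - j : ℕ) : K) + 2 * κ) * (((m - 1 - j : ℕ) : K) + κ)) := by
    intro j hj
    rw [Finset.mem_range] at hj
    rw [col_two hn hμ hj]
    have : m - (j + 1) = m - 1 - j := by omega
    rw [this]
    field_simp
    push_cast
    ring
  rw [Finset.prod_congr rfl h2, Finset.prod_mul_distrib, Finset.prod_const, Finset.card_range,
    Finset.prod_range_reflect (fun l => (((l : ℕ) : K) + 2 * κ) * (((l : ℕ) : K) + κ)) m, hn]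
  have h3 : κ ^ (2 * m) * (κ⁻¹ * κ⁻¹) ^ m = 1 := by
    rw [pow_mul, ← mul_pow]
    have : κ ^ 2 * (κ⁻¹ * κ⁻¹) = 1 := by field_simp
    rw [this, one_pow]
  rw [← mul_assoc, h3, one_mul]
  unfold vP
  rw [map_prod]
  apply Finset.prod_congr rfl
  intro l _
  simp only [map_mul, map_add, Polynomial.aeval_X, map_natCast, map_ofNat]

/-! ### Schur functions of two columns -/

lemma inVars_newt_sgn [CharZero K] (N m : ℕ) :
    inVars K N (newt (sgnw K) m) = esymm (Fin N) K m := by
  induction m using Nat.strong_induction_on with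
  | _ m ih =>
  rcases m with _ | m
  · rw [newt_zero, map_one, esymm_zero]
  · have hm : ((m : K) + 1) ≠ 0 := Nat.cast_add_one_ne_zero m
    have hC : (C ((m : K) + 1) : MvPolynomial (Fin N) K) ≠ 0 := by
      rw [Ne, C_eq_zero]
      exact hm
    apply mul_left_cancel₀ hC
    have h1 : C ((m : K) + 1) * inVars K N (newt (sgnw K) (m + 1)) =
        ∑ k ∈ range (m + 1), C ((-1) ^ k) * psum (Fin N) K (k + 1) *
          esymm (Fin N) K (m - k) := by
      rw [newt_succ, map_mul, inVars_C, ← mul_assoc, ← C_mul, mul_inv_cancel₀ hm, C_1, one_mul,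
        map_sum]
      apply Finset.sum_congr rfl
      intro k hk
      rw [Finset.mem_range] at hk
      rw [map_mul, map_mul, inVars_C, inVars_X, ih (m - k) (by omega)]
      rfl
    have h2 := MvPolynomial.mul_esymm_eq_sum (Fin N) K (m + 1)
    have h3 : (C ((m : K) + 1) : MvPolynomial (Fin N) K) = ((m + 1 : ℕ) : MvPolynomial (Fin N) K) := by
      rw [← map_natCast (C : K →+* MvPolynomial (Fin N) K)]
      push_cast
      rfl
    have h4 : ∑ k ∈ range (m + 1).succ, (if k < m + 1 then
        (-1) ^ k * esymm (Fin N) K k * psum (Fin N) K (m + 1 - k) else 0) =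
        ∑ k ∈ range (m + 1), (if m + 1 - 1 - k < m + 1 then (-1) ^ (m + 1 - 1 - k) *
          esymm (Fin N) K (m + 1 - 1 - k) * psum (Fin N) K (m + 1 - (m + 1 - 1 - k)) else 0) := by
      rw [Finset.sum_range_succ, if_neg (lt_irrefl _), add_zero,
        Finset.sum_range_reflect (fun k => if k < m + 1 then
          (-1) ^ k * esymm (Fin N) K k * psum (Fin N) K (m + 1 - k) else 0) (m + 1)]
    rw [h1, h3, h2, Finset.sum_filter,
      Finset.Nat.sum_antidiagonal_eq_sum_range_succ
        (fun i j => if i < m + 1 then (-1) ^ i * esymm (Fin N) K i * psum (Fin N) K j else 0),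
      h4, Finset.mul_sum]
    apply Finset.sum_congr rfl
    intro k hk
    rw [Finset.mem_range] at hk
    rw [if_pos (by omega)]
    have e1 : m + 1 - 1 - k = m - k := by omega
    have e3 : m + 1 - (m - k) = k + 1 := by omega
    rw [e1, e3]
    have e5 : ((-1 : MvPolynomial (Fin N) K)) ^ (m + 1 + 1) * (-1) ^ (m - k) = (-1) ^ k := by
      rw [← pow_add]
      have : m + 1 + 1 + (m - k) = k + 2 * (m - k + 1) := by omega
      rw [this, pow_add, pow_mul]
      simp
    have e6 : (C ((-1 : K) ^ k) : MvPolynomial (Fin N) K) = (-1) ^ k := by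
      simp
    rw [e6, ← e5]
    ring

/-- The Schur function of the shape `(2^m)`. -/
lemma isSchur_iff [CharZero K] {m : ℕ} (hm : 0 < m) {n : ℕ} (hn : n = 2 * m)
    {lam : n.Partition} (hlam : lam.parts = Multiset.replicate m 2) (s : SymFun K) :
    IsSchur lam s ↔ s = newt (sgnw K) m * newt (sgnw K) m -
      newt (sgnw K) (m + 1) * newt (sgnw K) (m - 1) := by
  have hrow : ∀ i, row lam i = if i < m then 2 else 0 := row_replicate hlam
  have hcol : ∀ j, j < 2 → col lam j = m := by
    intro j hj
    unfold col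
    have : ((Finset.range n).filter fun i => j < row lam i) = range m := by
      ext i
      rw [Finset.mem_filter, Finset.mem_range, Finset.mem_range, hrow]
      by_cases hi : i < m
      · rw [if_pos hi]
        omega
      · rw [if_neg hi]
        omega
    rw [this, Finset.card_range]
  have hrow0 : row lam 0 = 2 := by rw [hrow, if_pos hm]
  have hdet : ∀ N, Matrix.det (fun i j : Fin (row lam 0) =>
      if (i : ℕ) ≤ col lam i + j then esymm (Fin N) K (col lam i + j - i) else 0) =
      esymm (Fin N) K m * esymm (Fin N) K m -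
        esymm (Fin N) K (m + 1) * esymm (Fin N) K (m - 1) := by
    intro N
    have gen : ∀ d : ℕ, d = 2 → Matrix.det (fun i j : Fin d =>
        if (i : ℕ) ≤ col lam i + j then esymm (Fin N) K (col lam i + j - i) else 0) =
        esymm (Fin N) K m * esymm (Fin N) K m -
          esymm (Fin N) K (m + 1) * esymm (Fin N) K (m - 1) := by
      intro d hd
      subst hd
      rw [Matrix.det_fin_two]
      have c0 : col lam 0 = m := hcol 0 (by omega)
      have c1 : col lam 1 = m := hcol 1 (by omega)
      simp only [Fin.val_zero, Fin.val_one, c0, c1]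
      rw [if_pos (by omega), if_pos (by omega), if_pos (by omega), if_pos (by omega)]
      simp
    exact gen _ hrow0
  have hval : ∀ N, inVars K N (newt (sgnw K) m * newt (sgnw K) m -
      newt (sgnw K) (m + 1) * newt (sgnw K) (m - 1)) =
      esymm (Fin N) K m * esymm (Fin N) K m -
        esymm (Fin N) K (m + 1) * esymm (Fin N) K (m - 1) := by
    intro N
    rw [map_sub, map_mul, map_mul, inVars_newt_sgn, inVars_newt_sgn, inVars_newt_sgn]
  constructor
  · intro h
    apply inVars_ext
    intro N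
    rw [h N, hdet, hval]
  · rintro rfl N
    rw [hval, hdet]

/-- The Schur coefficient of `J̃_{(m,m)}` at `(2^m)`. -/
theorem pairing_Jtilde [CharZero K] [Algebra ℚ K] {κ : K} (φ : K →+* ℝ) (hφ : 0 < φ κ)
    {m : ℕ} (hm : 0 < m) {n : ℕ} (hn : n = 2 * m) {μ lam : n.Partition}
    (hμ : μ.parts = Multiset.replicate 2 m) (hlam : lam.parts = Multiset.replicate m 2)
    (hE : ∀ J r, m < J → r + J ≤ 2 * m → EP m J r = 0) (hN2 : N2P m = vP m)
    (hv : Polynomial.aeval κ (vP m) ≠ 0) {P s : SymFun K} (hP : IsJack κ⁻¹ μ P)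
    (hs : IsSchur lam s) :
    pairing 1 (κ ^ n • hookNorm κ⁻¹ μ • P) s = Polynomial.aeval κ (cP m) := by
  have hκ : κ ≠ 0 := by
    rintro rfl
    simp at hφ
  have hφ' : 0 < φ κ⁻¹ := by
    rw [map_inv₀]
    exact inv_pos.2 hφ
  have h1 : P = (Polynomial.aeval κ (vP m))⁻¹ • JG κ m :=
    isJack_unique φ hφ' hP (isJack_JG hκ hm hn hμ hE hN2 hv)
  rw [(isSchur_iff hm hn hlam s).1 hs, h1, smul_smul, smul_smul, hookNorm_two hκ hm hn hμ,
    mul_inv_cancel₀ hv, one_smul, pairing_JG_e κ hm]

end Helper487.Jack
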