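import Pool.Agent.Helper487.Jack.Pairing

open MvPolynomial Finset

namespace Helper487.Jack

variable {K : Type*} [Field K]

/-- The symmetric functions with generating function `exp (∑_k w_k p_k z^k / k)`, defined by
Newton's recursion. -/
noncomputable def newt (w : ℕ → K) : ℕ → SymFun K
  | 0 => 1
  | m + 1 => C (((m : K) + 1)⁻¹) * ∑ k : Fin (m + 1), C (w k) * X (k : ℕ) * newt w (m - k)

@[simp] lemma newt_zero (w : ℕ → K) : newt w 0 = 1 := by rw [newt]

lemma newt_succ (w : ℕ → K) (m : ℕ) :
    newt w (m + 1) = C (((m : K) + 1)⁻¹) *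
      ∑ k ∈ range (m + 1), C (w k) * X k * newt w (m - k) := by
  rw [newt, Finset.sum_range]

lemma newt_sum [CharZero K] (w : ℕ → K) (m : ℕ) :
    ∑ k ∈ range m, C (w k) * X k * newt w (m - 1 - k) = C (m : K) * newt w m := by
  rcases m with _ | m
  · simp
  · rw [newt_succ, ← mul_assoc, ← C_mul, Nat.add_sub_cancel]
    have h : ((m : K) + 1) ≠ 0 := Nat.cast_add_one_ne_zero m
    have h2 : (((m + 1 : ℕ) : K)) * ((m : K) + 1)⁻¹ = 1 := by
      push_cast
      exact mul_inv_cancel₀ h
    rw [h2]
    simp

lemma constantCoeff_newt (w : ℕ → K) (m : ℕ) :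
    constantCoeff (newt w m) = if m = 0 then 1 else 0 := by
  rcases m with _ | m
  · simp
  · rw [newt_succ]
    simp

lemma pderiv_prod {ι : Type*} [DecidableEq ι] (k : ℕ) (s : Finset ι) (q : ι → SymFun K) :
    pderiv k (∏ i ∈ s, q i) = ∑ i ∈ s, pderiv k (q i) * ∏ j ∈ s.erase i, q j := by
  induction s using Finset.induction_on with
  | empty => simp
  | insert a s ha ih =>
    rw [Finset.prod_insert ha, pderiv_mul, ih, Finset.sum_insert ha, Finset.erase_insert ha,
      Finset.mul_sum]
    congr 1
    apply Finset.sum_congr rfl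
    intro i hi
    have hia : a ≠ i := fun h => ha (h ▸ hi)
    rw [Finset.erase_insert_of_ne hia, Finset.prod_insert (by simp [ha])]
    ring

/-- `(k+1) ∂/∂p_{k+1}` lowers the index by `k+1`. -/
lemma pderiv_newt [CharZero K] (w : ℕ → K) (k m : ℕ) :
    C ((k : K) + 1) * pderiv k (newt w m) =
      if k + 1 ≤ m then C (w k) * newt w (m - (k + 1)) else 0 := by
  induction m using Nat.strong_induction_on with
  | _ m ih =>
  rcases m with _ | m
  · simp
  · have hm : ((m : K) + 1) ≠ 0 := Nat.cast_add_one_ne_zero m
    have hk : ((k : K) + 1) ≠ 0 := Nat.cast_add_one_ne_zero k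
    have key : C ((m : K) + 1) * (C ((k : K) + 1) * pderiv k (newt w (m + 1))) =
        C ((m : K) + 1) * (if k + 1 ≤ m + 1 then C (w k) * newt w (m + 1 - (k + 1)) else 0) := by
      have h1 : C ((m : K) + 1) * pderiv k (newt w (m + 1)) =
          ∑ j ∈ range (m + 1), C (w j) * (pderiv k (X j) * newt w (m - j)
            + X j * pderiv k (newt w (m - j))) := by
        rw [newt_succ, pderiv_C_mul, ← mul_assoc, ← C_mul, mul_inv_cancel₀ hm, C_1, one_mul,
          map_sum]
        apply Finset.sum_congr rfl
        intro j _
        rw [mul_assoc, pderiv_C_mul, pderiv_mul]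
      have h2 : C ((m : K) + 1) * (C ((k : K) + 1) * pderiv k (newt w (m + 1))) =
          C ((k : K) + 1) * (C ((m : K) + 1) * pderiv k (newt w (m + 1))) := by ring
      rw [h2, h1, Finset.mul_sum]
      have h3 : ∀ j ∈ range (m + 1), C ((k : K) + 1) * (C (w j) *
          (pderiv k (X j) * newt w (m - j) + X j * pderiv k (newt w (m - j)))) =
          (if j = k then C ((k : K) + 1) * C (w k) * newt w (m - k) else 0) +
          C (w k) * (if k + 1 ≤ m - j then C (w j) * X j * newt w (m - j - (k + 1)) else 0) := by
        intro j hj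
        have hj' : m - j < m + 1 := by omega
        have := ih (m - j) hj'
        have e1 : C ((k : K) + 1) * (C (w j) *
          (pderiv k (X j) * newt w (m - j) + X j * pderiv k (newt w (m - j)))) =
          C ((k : K) + 1) * C (w j) * (pderiv k (X j) * newt w (m - j)) +
          C (w j) * X j * (C ((k : K) + 1) * pderiv k (newt w (m - j))) := by ring
        rw [e1, this]
        congr 1
        · by_cases h : j = k
          · subst h
            rw [pderiv_X_self, if_pos rfl, one_mul]
          · rw [pderiv_X_of_ne h, if_neg h]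
            ring
        · split_ifs <;> ring
      rw [Finset.sum_congr rfl h3, Finset.sum_add_distrib, ← Finset.mul_sum]
      by_cases hkm : k ≤ m
      · rw [Finset.sum_ite_eq' (range (m + 1)) k, if_pos (Finset.mem_range.2 (by omega)),
          if_pos (by omega : k + 1 ≤ m + 1)]
        have h4 : ∑ j ∈ range (m + 1),
            (if k + 1 ≤ m - j then C (w j) * X j * newt w (m - j - (k + 1)) else 0) =
            ∑ j ∈ range (m - k), C (w j) * X j * newt w (m - k - 1 - j) := by
          symm
          apply Finset.sum_subset_zero_on_sdiff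
          · intro j hj
            rw [Finset.mem_range] at hj ⊢
            omega
          · intro j hj
            rw [Finset.mem_sdiff, Finset.mem_range, Finset.mem_range] at hj
            rw [if_neg (by omega)]
          · intro j hj
            rw [Finset.mem_range] at hj
            rw [if_pos (by omega)]
            congr 2
            omega
        rw [h4, newt_sum]
        have h5 : m + 1 - (k + 1) = m - k := by omega
        rw [h5]
        have h6 : ((m - k : ℕ) : K) = (m : K) - k := by
          rw [Nat.cast_sub hkm]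
        rw [h6]
        simp only [C_add, C_sub, C_1]
        ring
      · rw [Finset.sum_ite_eq' (range (m + 1)) k, if_neg (by rw [Finset.mem_range]; omega),
          if_neg (by omega : ¬ (k + 1 ≤ m + 1))]
        have h4 : ∑ j ∈ range (m + 1),
            (if k + 1 ≤ m - j then C (w j) * X j * newt w (m - j - (k + 1)) else 0) = 0 := by
          apply Finset.sum_eq_zero
          intro j hj
          rw [if_neg (by omega)]
        rw [h4]
        ring
    have hC : (C ((m : K) + 1) : SymFun K) ≠ 0 := by
      rw [Ne, C_eq_zero]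
      exact hm
    exact mul_left_cancel₀ hC key

lemma coeff_zero_prod_newt (w : ℕ → K) {N : ℕ} (a : Fin N →₀ ℕ) :
    coeff 0 (∏ i, newt w (a i)) = if a = 0 then 1 else 0 := by
  have h : coeff 0 (∏ i, newt w (a i)) = constantCoeff (∏ i, newt w (a i)) := rfl
  rw [h, map_prod]
  simp only [constantCoeff_newt]
  by_cases ha : a = 0
  · subst ha
    simp
  · rw [if_neg ha]
    obtain ⟨i, hi⟩ := Finsupp.ne_iff.1 ha
    apply Finset.prod_eq_zero (Finset.mem_univ i)
    rw [if_neg (by simpa using hi)]

/-- The coefficient of `x^a` in (the `u`-twisted) `f(x_1, …, x_N)` is a scalar product. -/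
theorem coeff_aeval_psum [CharZero K] (t : K) (w u : ℕ → K) (hu : ∀ k, u k = t * w k) (N : ℕ)
    (f : SymFun K) (a : Fin N →₀ ℕ) :
    coeff a (aeval (fun k => C (u k) * psum (Fin N) K (k + 1)) f) =
      pairing t f (∏ i, newt w (a i)) := by
  classical
  induction f using MvPolynomial.induction_on generalizing a with
  | C c =>
    rw [aeval_C]
    have h1 : pairing t (C c) (∏ i, newt w (a i)) = c * coeff 0 (∏ i, newt w (a i)) := by
      have : (C c : SymFun K) = monomial 0 c := rfl
      rw [this, pairing_monomial_left]
      simp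
    rw [h1, coeff_zero_prod_newt]
    have : (algebraMap K (MvPolynomial (Fin N) K)) c = C c := rfl
    rw [this, coeff_C]
    by_cases h : a = 0
    · simp [h]
    · rw [if_neg (fun hh => h hh.symm), if_neg h, mul_zero]
  | add p q hp hq => rw [map_add, coeff_add, hp, hq, pairing_add_left]
  | mul_X p k hp =>
    rw [map_mul, aeval_X, mul_comm p (X k), pairing_X_mul, psum]
    have e1 : aeval (fun k => C (u k) * psum (Fin N) K (k + 1)) p *
        (C (u k) * ∑ i, X i ^ (k + 1)) = ∑ i : Fin N,
        C (u k) * (aeval (fun k => C (u k) * psum (Fin N) K (k + 1)) p *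
          monomial (Finsupp.single i (k + 1)) 1) := by
      rw [← mul_assoc, mul_comm _ (C (u k)), mul_assoc, Finset.mul_sum, Finset.mul_sum]
      apply Finset.sum_congr rfl
      intro i _
      rw [X_pow_eq_monomial]
    rw [e1, coeff_sum, pderiv_prod, pairing_sum_right, Finset.mul_sum]
    apply Finset.sum_congr rfl
    intro i _
    rw [coeff_C_mul, coeff_mul_monomial', mul_one]
    have e2 : t * ((k : K) + 1) * pairing t p (pderiv k (newt w (a i)) *
        ∏ j ∈ Finset.univ.erase i, newt w (a j)) =
        t * pairing t p ((C ((k : K) + 1) * pderiv k (newt w (a i))) *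
          ∏ j ∈ Finset.univ.erase i, newt w (a j)) := by
      rw [mul_assoc (C ((k : K) + 1)), pairing_C_mul_right]
      ring
    rw [e2, pderiv_newt]
    by_cases hk : k + 1 ≤ a i
    · have hle : Finsupp.single i (k + 1) ≤ a := by
        rw [Finsupp.single_le_iff]
        exact hk
      rw [if_pos hle, if_pos hk, hp, hu k, mul_assoc (C (w k)), pairing_C_mul_right]
      have e3 : (∏ j, newt w ((a - Finsupp.single i (k + 1)) j)) =
          newt w (a i - (k + 1)) * ∏ j ∈ Finset.univ.erase i, newt w (a j) := by
        rw [← Finset.mul_prod_erase Finset.univ _ (Finset.mem_univ i)]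
        congr 1
        · simp
        · apply Finset.prod_congr rfl
          intro j hj
          have : i ≠ j := fun h => (Finset.mem_erase.1 hj).1 h.symm
          simp [this]
      rw [e3]
      ring
    · have hle : ¬ (Finsupp.single i (k + 1) ≤ a) := by
        rw [Finsupp.single_le_iff]
        exact hk
      rw [if_neg hle, if_neg hk, zero_mul, pairing_zero_right, mul_zero, mul_zero]

/-- The coefficient of `x^a` in `f(x_1, …, x_N)` as a scalar product. -/
theorem coeff_inVars [CharZero K] (t : K) (ht : t ≠ 0) (N : ℕ) (f : SymFun K)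
    (a : Fin N →₀ ℕ) :
    coeff a (inVars K N f) = pairing t f (∏ i, newt (fun _ => t⁻¹) (a i)) := by
  have h := coeff_aeval_psum t (fun _ => t⁻¹) (fun _ => 1) (fun k => (mul_inv_cancel₀ ht).symm)
    N f a
  rw [← h]
  simp only [C_1, one_mul]
  rfl

end Helper487.Jack
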