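import Pool.Agent.Helper487.Jack.Defs

open MvPolynomial Finset

namespace Helper487.Jack

variable {K : Type*} [Field K]

lemma zee_eq_prod {d : ℕ →₀ ℕ} {S : Finset ℕ} (h : d.support ⊆ S) :
    zee d = ∏ k ∈ S, (k + 1) ^ d k * (d k).factorial := by
  unfold zee
  apply Finset.prod_subset h
  intro k _ hk
  have : d k = 0 := by simpa using hk
  simp [this]

lemma len_eq_sum {d : ℕ →₀ ℕ} {S : Finset ℕ} (h : d.support ⊆ S) :
    len d = ∑ k ∈ S, d k := by
  unfold len
  apply Finset.sum_subset h
  intro k _ hk
  simpa using hk

lemma zee_pos (d : ℕ →₀ ℕ) : 0 < zee d := by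
  unfold zee
  apply Finset.prod_pos
  intro k _
  positivity

@[simp] lemma zee_zero : zee 0 = 1 := by simp [zee]
@[simp] lemma len_zero : len 0 = 0 := by simp [len]

lemma zee_add_single (d : ℕ →₀ ℕ) (k : ℕ) :
    zee (d + Finsupp.single k 1) = zee d * (k + 1) * (d k + 1) := by
  classical
  have h1 : (d + Finsupp.single k 1).support ⊆ insert k d.support := by
    intro j hj
    by_cases h : j = k
    · simp [h]
    · have : (d + Finsupp.single k 1 : ℕ →₀ ℕ) j ≠ 0 := by simpa using hj
      rw [Finsupp.add_apply, Finsupp.single_apply, if_neg (fun hh => h hh.symm)] at this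
      simp at this
      simp [this]
  have h2 : d.support ⊆ insert k d.support := Finset.subset_insert _ _
  rw [zee_eq_prod h1, zee_eq_prod h2]
  have hk : k ∈ insert k d.support := Finset.mem_insert_self _ _
  rw [← Finset.mul_prod_erase _ _ hk, ← Finset.mul_prod_erase _ _ hk]
  have h3 : ∀ j ∈ (insert k d.support).erase k,
      (j + 1) ^ ((d + Finsupp.single k 1 : ℕ →₀ ℕ) j) *
          ((d + Finsupp.single k 1 : ℕ →₀ ℕ) j).factorial
        = (j + 1) ^ d j * (d j).factorial := by
    intro j hj
    have hjk : j ≠ k := (Finset.mem_erase.1 hj).1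
    rw [Finsupp.add_apply, Finsupp.single_apply, if_neg (fun hh => hjk hh.symm), add_zero]
  rw [Finset.prod_congr rfl h3]
  simp only [Finsupp.add_apply, Finsupp.single_eq_same, Nat.factorial_succ, pow_succ]
  ring

lemma len_add_single (d : ℕ →₀ ℕ) (k : ℕ) :
    len (d + Finsupp.single k 1) = len d + 1 := by
  classical
  have h1 : (d + Finsupp.single k 1).support ⊆ insert k d.support := by
    intro j hj
    by_cases h : j = k
    · simp [h]
    · have : (d + Finsupp.single k 1 : ℕ →₀ ℕ) j ≠ 0 := by simpa using hj
      rw [Finsupp.add_apply, Finsupp.single_apply, if_neg (fun hh => h hh.symm)] at this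
      simp at this
      simp [this]
  have h2 : d.support ⊆ insert k d.support := Finset.subset_insert _ _
  rw [len_eq_sum h1, len_eq_sum h2]
  simp only [Finsupp.add_apply, Finset.sum_add_distrib]
  simp [Finsupp.single_apply]

lemma pairing_eq_sum (t : K) {f g : SymFun K} {S : Finset (ℕ →₀ ℕ)} (h : f.support ⊆ S) :
    pairing t f g = ∑ d ∈ S, coeff d f * coeff d g * ((zee d : K) * t ^ len d) := by
  unfold pairing
  apply Finset.sum_subset h
  intro d _ hd
  rw [notMem_support_iff.1 hd]
  simp

lemma pairing_comm (t : K) (f g : SymFun K) : pairing t f g = pairing t g f := by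
  classical
  rw [pairing_eq_sum t (S := f.support ∪ g.support) Finset.subset_union_left,
    pairing_eq_sum t (S := f.support ∪ g.support) Finset.subset_union_right]
  apply Finset.sum_congr rfl
  intro d _
  ring

lemma pairing_add_right (t : K) (f g h : SymFun K) :
    pairing t f (g + h) = pairing t f g + pairing t f h := by
  unfold pairing
  rw [← Finset.sum_add_distrib]
  apply Finset.sum_congr rfl
  intro d _
  rw [coeff_add]
  ring

lemma pairing_add_left (t : K) (f g h : SymFun K) :
    pairing t (f + g) h = pairing t f h + pairing t g h := by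
  rw [pairing_comm, pairing_add_right, pairing_comm t h f, pairing_comm t h g]

lemma pairing_smul_right (t c : K) (f g : SymFun K) :
    pairing t f (c • g) = c * pairing t f g := by
  unfold pairing
  rw [Finset.mul_sum]
  apply Finset.sum_congr rfl
  intro d _
  rw [coeff_smul, smul_eq_mul]
  ring

lemma pairing_smul_left (t c : K) (f g : SymFun K) :
    pairing t (c • f) g = c * pairing t f g := by
  rw [pairing_comm, pairing_smul_right, pairing_comm]

/-- The pairing as a bilinear map. -/
noncomputable def pairL (t : K) : SymFun K →ₗ[K] SymFun K →ₗ[K] K :=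
  LinearMap.mk₂ K (pairing t) (pairing_add_left t)
    (fun c f g => by rw [pairing_smul_left, smul_eq_mul]) (pairing_add_right t)
    (fun c f g => by rw [pairing_smul_right, smul_eq_mul])

@[simp] lemma pairL_apply (t : K) (f g : SymFun K) : pairL t f g = pairing t f g := rfl

lemma pairing_zero_right (t : K) (g : SymFun K) : pairing t g 0 = 0 :=
  (pairL t g).map_zero

lemma pairing_zero_left (t : K) (g : SymFun K) : pairing t 0 g = 0 := by
  rw [pairing_comm, pairing_zero_right]

lemma pairing_neg_right (t : K) (f g : SymFun K) : pairing t f (-g) = - pairing t f g :=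
  (pairL t f).map_neg g

lemma pairing_neg_left (t : K) (f g : SymFun K) : pairing t (-f) g = - pairing t f g := by
  rw [pairing_comm, pairing_neg_right, pairing_comm]

lemma pairing_sub_right (t : K) (f g h : SymFun K) :
    pairing t f (g - h) = pairing t f g - pairing t f h :=
  (pairL t f).map_sub g h

lemma pairing_sub_left (t : K) (f g h : SymFun K) :
    pairing t (f - g) h = pairing t f h - pairing t g h := by
  rw [pairing_comm, pairing_sub_right, pairing_comm t h f, pairing_comm t h g]

lemma pairing_sum_right {ι : Type*} (t : K) (s : Finset ι) (f : ι → SymFun K) (g : SymFun K) :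
    pairing t g (∑ i ∈ s, f i) = ∑ i ∈ s, pairing t g (f i) :=
  map_sum (pairL t g) f s

lemma pairing_sum_left {ι : Type*} (t : K) (s : Finset ι) (f : ι → SymFun K) (g : SymFun K) :
    pairing t (∑ i ∈ s, f i) g = ∑ i ∈ s, pairing t (f i) g := by
  rw [pairing_comm, pairing_sum_right]
  exact Finset.sum_congr rfl fun i _ => pairing_comm _ _ _

lemma pairing_C_mul_left (t c : K) (f g : SymFun K) :
    pairing t (C c * f) g = c * pairing t f g := by
  rw [← smul_eq_C_mul, pairing_smul_left]

lemma pairing_C_mul_right (t c : K) (f g : SymFun K) :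
    pairing t f (C c * g) = c * pairing t f g := by
  rw [← smul_eq_C_mul, pairing_smul_right]

lemma pairing_monomial_left (t : K) (d : ℕ →₀ ℕ) (c : K) (g : SymFun K) :
    pairing t (monomial d c) g = c * coeff d g * ((zee d : K) * t ^ len d) := by
  classical
  rw [pairing_eq_sum t (S := {d}) support_monomial_subset]
  simp

lemma pairing_one_left (t : K) (g : SymFun K) : pairing t 1 g = coeff 0 g := by
  have : (1 : SymFun K) = monomial 0 1 := rfl
  rw [this, pairing_monomial_left]
  simp

/-- Multiplication by `p_{k+1}` is adjoint to `t (k+1) ∂/∂p_{k+1}`. -/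
lemma pairing_X_mul (t : K) (k : ℕ) (f g : SymFun K) :
    pairing t (X k * f) g = t * ((k : K) + 1) * pairing t f (pderiv k g) := by
  induction f using MvPolynomial.induction_on' with
  | add p q hp hq => rw [mul_add (X k), pairing_add_left, pairing_add_left, hp, hq]; ring
  | monomial d c =>
    have : (X k * monomial d c : SymFun K) = monomial (d + Finsupp.single k 1) c := by
      rw [X, monomial_mul, one_mul, add_comm]
    rw [this, pairing_monomial_left, pairing_monomial_left, coeff_pderiv, zee_add_single,
      len_add_single]
    push_cast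
    ring

end Helper487.Jack
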