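import Mathlib

/-! Polynomials in the parameter, their values at natural numbers, and verification of polynomial
identities by evaluation. -/

open Polynomial Finset

namespace Helper487.Jack

/-- `binom(X + a - 1, a)`. -/
noncomputable def WP (a : ℕ) : ℚ[X] := C ((a.factorial : ℚ)⁻¹) * ∏ l ∈ range a, (X + C (l : ℚ))

/-- `binom(X, a)`. -/
noncomputable def VP (a : ℕ) : ℚ[X] := C ((a.factorial : ℚ)⁻¹) * ∏ l ∈ range a, (X - C (l : ℚ))

/-- the distance of `r` from `m` -/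
def dst (m r : ℕ) : ℕ := if r ≤ m then m - r else r - m

/-- the coefficients `(-1)^i X(X-1)…(X-i+1)(X+i+1)…(X+m)`, `i = |r - m|`. -/
noncomputable def gamP (m r : ℕ) : ℚ[X] :=
  C ((-1 : ℚ) ^ dst m r) * (∏ l ∈ range (dst m r), (X - C (l : ℚ))) *
    ∏ l ∈ range (m - dst m r), (X + C ((dst m r + 1 + l : ℕ) : ℚ))

noncomputable def EP (m J r : ℕ) : ℚ[X] :=
  ∑ a ∈ range (J + 1), gamP m (r + a) * WP a * WP (J - a)

/-- `∏_{l<m} (l + 2X)(l + X)`. -/
noncomputable def vP (m : ℕ) : ℚ[X] := ∏ l ∈ range m, ((C (l : ℚ) + 2 * X) * (C (l : ℚ) + X))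

/-- The pairing of two products of two `newt` functions. -/
def Tsum {A : Type*} [CommSemiring A] (W : ℕ → A) (r s a : ℕ) : A :=
  ∑ i ∈ range (a + 1), if i ≤ r ∧ a - i ≤ s then W i * W (a - i) * W (r - i) * W (s - (a - i)) else 0

noncomputable def N2P (m : ℕ) : ℚ[X] :=
  C (m.factorial : ℚ) * ∑ r ∈ range (2 * m + 1), gamP m r * Tsum WP r (2 * m - r) m

noncomputable def cP (m : ℕ) : ℚ[X] :=
  C (m.factorial : ℚ) * ∑ r ∈ range (2 * m + 1), gamP m r *
    (Tsum VP r (2 * m - r) m - Tsum VP r (2 * m - r) (m + 1))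

/-! ### Values at natural numbers -/

def wN (κ a : ℕ) : ℕ := κ.ascFactorial a / a.factorial

def vN (κ a : ℕ) : ℕ := κ.descFactorial a / a.factorial

def gN (m κ r : ℕ) : ℤ :=
  (-1) ^ dst m r * (κ.descFactorial (dst m r) : ℤ) *
    ((κ + dst m r + 1).ascFactorial (m - dst m r) : ℤ)

lemma prod_add_eval (κ c a : ℕ) :
    (∏ l ∈ range a, (X + C ((c + l : ℕ) : ℚ))).eval (κ : ℚ) = ((κ + c).ascFactorial a : ℚ) := by
  rw [eval_prod]
  induction a with
  | zero => simp
  | succ a ih =>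
    rw [Finset.prod_range_succ, ih, Nat.ascFactorial_succ]
    simp only [eval_add, eval_X, eval_C]
    push_cast
    ring

lemma prod_sub_eval (κ a : ℕ) :
    (∏ l ∈ range a, (X - C (l : ℚ))).eval (κ : ℚ) = (κ.descFactorial a : ℚ) := by
  rw [eval_prod]
  induction a with
  | zero => simp
  | succ a ih =>
    rw [Finset.prod_range_succ, ih, Nat.descFactorial_succ]
    simp only [eval_sub, eval_X, eval_C]
    by_cases h : a ≤ κ
    · rw [Nat.cast_mul, Nat.cast_sub h]
      ring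
    · rw [Nat.descFactorial_eq_zero_iff_lt.2 (not_le.1 h)]
      simp

lemma WP_eval (κ a : ℕ) : (WP a).eval (κ : ℚ) = (wN κ a : ℚ) := by
  unfold WP wN
  have h : (∏ l ∈ range a, (X + C (l : ℚ))) = ∏ l ∈ range a, (X + C ((0 + l : ℕ) : ℚ)) := by
    simp
  have h2 : (a.factorial : ℚ) ≠ 0 := by exact_mod_cast a.factorial_ne_zero
  rw [eval_mul, eval_C, h, prod_add_eval, add_zero,
    Nat.cast_div (Nat.factorial_dvd_ascFactorial _ _) h2]
  field_simp

lemma VP_eval (κ a : ℕ) : (VP a).eval (κ : ℚ) = (vN κ a : ℚ) := by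
  unfold VP vN
  have h2 : (a.factorial : ℚ) ≠ 0 := by exact_mod_cast a.factorial_ne_zero
  rw [eval_mul, eval_C, prod_sub_eval, Nat.cast_div (Nat.factorial_dvd_descFactorial _ _) h2]
  field_simp

lemma gamP_eval (m κ r : ℕ) : (gamP m r).eval (κ : ℚ) = (gN m κ r : ℚ) := by
  unfold gamP gN
  rw [eval_mul, eval_mul, eval_C, prod_sub_eval, prod_add_eval]
  push_cast
  rw [add_assoc κ]

def EZ (m κ J r : ℕ) : ℤ := ∑ a ∈ range (J + 1), gN m κ (r + a) * wN κ a * wN κ (J - a)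

lemma EP_eval (m κ J r : ℕ) : (EP m J r).eval (κ : ℚ) = (EZ m κ J r : ℚ) := by
  unfold EP EZ
  rw [eval_finsetSum]
  push_cast
  apply Finset.sum_congr rfl
  intro a _
  rw [eval_mul, eval_mul, gamP_eval, WP_eval, WP_eval]

lemma Tsum_eval (P : ℕ → ℚ[X]) (F : ℕ → ℕ) (κ : ℕ) (h : ∀ a, (P a).eval (κ : ℚ) = (F a : ℚ))
    (r s a : ℕ) : (Tsum P r s a).eval (κ : ℚ) = (Tsum F r s a : ℕ) := by
  unfold Tsum
  rw [eval_finsetSum]
  push_cast
  apply Finset.sum_congr rfl
  intro i _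
  by_cases hi : i ≤ r ∧ a - i ≤ s
  · rw [if_pos hi, if_pos hi]
    simp only [eval_mul, h]
  · rw [if_neg hi, if_neg hi, eval_zero]

def N2Z (m κ : ℕ) : ℤ :=
  m.factorial * ∑ r ∈ range (2 * m + 1), gN m κ r * (Tsum (wN κ) r (2 * m - r) m : ℕ)

def vZ (m κ : ℕ) : ℕ := ∏ l ∈ range m, ((l + 2 * κ) * (l + κ))

def cZ (m κ : ℕ) : ℤ :=
  m.factorial * ∑ r ∈ range (2 * m + 1), gN m κ r *
    ((Tsum (vN κ) r (2 * m - r) m : ℕ) - (Tsum (vN κ) r (2 * m - r) (m + 1) : ℕ))

lemma N2P_eval (m κ : ℕ) : (N2P m).eval (κ : ℚ) = (N2Z m κ : ℚ) := by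
  unfold N2P N2Z
  rw [eval_mul, eval_C, eval_finsetSum]
  push_cast
  congr 1
  apply Finset.sum_congr rfl
  intro r _
  rw [eval_mul, gamP_eval, Tsum_eval WP (wN κ) κ (WP_eval κ)]

lemma vP_eval (m κ : ℕ) : (vP m).eval (κ : ℚ) = (vZ m κ : ℚ) := by
  unfold vP vZ
  rw [eval_prod]
  push_cast
  apply Finset.prod_congr rfl
  intro l _
  simp

lemma cP_eval (m κ : ℕ) : (cP m).eval (κ : ℚ) = (cZ m κ : ℚ) := by
  unfold cP cZ
  rw [eval_mul, eval_C, eval_finsetSum]
  push_cast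
  congr 1
  apply Finset.sum_congr rfl
  intro r _
  rw [eval_mul, gamP_eval, eval_sub, Tsum_eval VP (vN κ) κ (VP_eval κ),
    Tsum_eval VP (vN κ) κ (VP_eval κ)]

/-! ### Degrees -/

lemma natDegree_prod_add_le (c a : ℕ) :
    (∏ l ∈ range a, (X + C ((c + l : ℕ) : ℚ))).natDegree ≤ a := by
  refine (natDegree_prod_le _ _).trans ?_
  refine (Finset.sum_le_card_nsmul _ _ 1 (fun l _ => ?_)).trans (by simp)
  exact natDegree_X_add_C _ |>.le

lemma natDegree_prod_sub_le (a : ℕ) :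
    (∏ l ∈ range a, (X - C (l : ℚ))).natDegree ≤ a := by
  refine (natDegree_prod_le _ _).trans ?_
  refine (Finset.sum_le_card_nsmul _ _ 1 (fun l _ => ?_)).trans (by simp)
  exact natDegree_X_sub_C _ |>.le

lemma natDegree_WP_le (a : ℕ) : (WP a).natDegree ≤ a := by
  unfold WP
  refine (natDegree_C_mul_le _ _).trans ?_
  have := natDegree_prod_add_le 0 a
  simpa using this

lemma natDegree_VP_le (a : ℕ) : (VP a).natDegree ≤ a := by
  unfold VP
  exact (natDegree_C_mul_le _ _).trans (natDegree_prod_sub_le a)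

lemma natDegree_gamP_le {m r : ℕ} (h : r ≤ 2 * m) : (gamP m r).natDegree ≤ m := by
  unfold gamP
  refine natDegree_mul_le.trans ?_
  have h1 := natDegree_prod_add_le (dst m r + 1) (m - dst m r)
  have h2 := (natDegree_C_mul_le ((-1 : ℚ) ^ dst m r) _).trans (natDegree_prod_sub_le (dst m r))
  have h3 : dst m r ≤ m := by
    unfold dst
    split_ifs <;> omega
  refine (Nat.add_le_add h2 h1).trans ?_
  omega

lemma natDegree_EP_le {m J r : ℕ} (h : r + J ≤ 2 * m) : (EP m J r).natDegree ≤ m + J := by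
  unfold EP
  apply natDegree_sum_le_of_forall_le
  intro a ha
  rw [Finset.mem_range] at ha
  refine natDegree_mul_le.trans ?_
  have h1 := natDegree_WP_le (J - a)
  have h2 : (gamP m (r + a) * WP a).natDegree ≤ m + a :=
    natDegree_mul_le.trans (Nat.add_le_add (natDegree_gamP_le (by omega)) (natDegree_WP_le a))
  refine (Nat.add_le_add h2 h1).trans ?_
  omega

lemma natDegree_Tsum_le {P : ℕ → ℚ[X]} (hP : ∀ a, (P a).natDegree ≤ a) (r s a : ℕ) :
    (Tsum P r s a).natDegree ≤ r + s := by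
  unfold Tsum
  apply natDegree_sum_le_of_forall_le
  intro i hi
  rw [Finset.mem_range] at hi
  by_cases h : i ≤ r ∧ a - i ≤ s
  · rw [if_pos h]
    have h1 : (P i * P (a - i)).natDegree ≤ i + (a - i) :=
      natDegree_mul_le.trans (Nat.add_le_add (hP _) (hP _))
    have h2 : (P i * P (a - i) * P (r - i)).natDegree ≤ i + (a - i) + (r - i) :=
      natDegree_mul_le.trans (Nat.add_le_add h1 (hP _))
    have h3 : (P i * P (a - i) * P (r - i) * P (s - (a - i))).natDegree ≤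
        i + (a - i) + (r - i) + (s - (a - i)) :=
      natDegree_mul_le.trans (Nat.add_le_add h2 (hP _))
    refine h3.trans ?_
    omega
  · rw [if_neg h]
    simp

lemma natDegree_N2P_le (m : ℕ) : (N2P m).natDegree ≤ 3 * m := by
  unfold N2P
  refine (natDegree_C_mul_le _ _).trans ?_
  apply natDegree_sum_le_of_forall_le
  intro r hr
  rw [Finset.mem_range] at hr
  refine natDegree_mul_le.trans ?_
  refine (Nat.add_le_add (natDegree_gamP_le (by omega))
    (natDegree_Tsum_le natDegree_WP_le _ _ _)).trans ?_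
  omega

lemma natDegree_cP_le (m : ℕ) : (cP m).natDegree ≤ 3 * m := by
  unfold cP
  refine (natDegree_C_mul_le _ _).trans ?_
  apply natDegree_sum_le_of_forall_le
  intro r hr
  rw [Finset.mem_range] at hr
  refine natDegree_mul_le.trans ?_
  refine (Nat.add_le_add (natDegree_gamP_le (by omega)) (natDegree_sub_le_of_le
    (natDegree_Tsum_le natDegree_VP_le _ _ _) (natDegree_Tsum_le natDegree_VP_le _ _ _))).trans
    ?_
  omega

lemma natDegree_vP_le (m : ℕ) : (vP m).natDegree ≤ 2 * m := by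
  unfold vP
  refine (natDegree_prod_le _ _).trans ?_
  refine (Finset.sum_le_card_nsmul _ _ 2 (fun l _ => ?_)).trans (by simp; omega)
  refine natDegree_mul_le.trans ?_
  have h1 : (C (l : ℚ) + 2 * X).natDegree ≤ 1 := by
    rw [show (2 : ℚ[X]) = C 2 from rfl]
    compute_degree
  have h2 : (C (l : ℚ) + X).natDegree ≤ 1 := by compute_degree
  omega

/-- A polynomial of degree at most `D` vanishing at `0, …, D` vanishes. -/
lemma eq_zero_of_eval_nat {p : ℚ[X]} {D : ℕ} (hdeg : p.natDegree ≤ D)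
    (h : ∀ κ : ℕ, κ < D + 1 → p.eval (κ : ℚ) = 0) : p = 0 := by
  classical
  apply Polynomial.eq_zero_of_natDegree_lt_card_of_eval_eq_zero' p
    ((range (D + 1)).image (fun κ : ℕ => (κ : ℚ)))
  · intro x hx
    obtain ⟨κ, hκ, rfl⟩ := Finset.mem_image.1 hx
    exact h κ (Finset.mem_range.1 hκ)
  · rw [Finset.card_image_of_injective _ Nat.cast_injective, Finset.card_range]
    omega

lemma EP_eq_zero {m J r : ℕ} (h : r + J ≤ 2 * m)
    (hZ : ∀ κ : ℕ, κ < m + J + 1 → EZ m κ J r = 0) : EP m J r = 0 := by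
  apply eq_zero_of_eval_nat (natDegree_EP_le h)
  intro κ hκ
  rw [EP_eval, hZ κ hκ, Int.cast_zero]

lemma N2P_eq {m : ℕ} (hZ : ∀ κ : ℕ, κ < 3 * m + 1 → N2Z m κ = vZ m κ) : N2P m = vP m := by
  rw [← sub_eq_zero]
  have hd : (N2P m - vP m).natDegree ≤ 3 * m :=
    (natDegree_sub_le_of_le (natDegree_N2P_le m)
      ((natDegree_vP_le m).trans (by omega : 2 * m ≤ 3 * m))).trans (by simp)
  apply eq_zero_of_eval_nat (D := 3 * m) hd
  intro κ hκ
  rw [eval_sub, N2P_eval, vP_eval, hZ κ hκ]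
  push_cast
  ring

end Helper487.Jack
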