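import Pool.Agent.Helper487.Jack.Newt

open MvPolynomial Finset

namespace Helper487.Jack

variable {K : Type*} [Field K]

/-- The homomorphism `p_{k+1} ↦ p_{k+1} + u_k z^{k+1}` (adding one twisted variable `z`). -/
noncomputable def addVar (u : ℕ → K) : SymFun K →ₐ[K] Polynomial (SymFun K) :=
  aeval fun k => Polynomial.C (X k) + Polynomial.C (C (u k)) * Polynomial.X ^ (k + 1)

lemma addVar_X (u : ℕ → K) (k : ℕ) : addVar u (X k) =
    Polynomial.C (X k) + Polynomial.C (C (u k)) * Polynomial.X ^ (k + 1) := by
  unfold addVar
  rw [aeval_X]

lemma addVar_C (u : ℕ → K) (c : K) : addVar u (C c) = Polynomial.C (C c) := by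
  unfold addVar
  rw [aeval_C]
  rfl

lemma coeff_addVar_mul_X (u : ℕ → K) (p : SymFun K) (k J : ℕ) :
    (addVar u (p * X k)).coeff J = X k * (addVar u p).coeff J +
      (if k + 1 ≤ J then C (u k) * (addVar u p).coeff (J - (k + 1)) else 0) := by
  have h : addVar u (p * X k) = Polynomial.C (X k) * addVar u p +
      Polynomial.C (C (u k)) * (addVar u p * Polynomial.X ^ (k + 1)) := by
    rw [map_mul, addVar_X]
    ring
  rw [h, Polynomial.coeff_add, Polynomial.coeff_C_mul, Polynomial.coeff_C_mul,
    Polynomial.coeff_mul_X_pow']
  congr 1
  split_ifs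
  · rfl
  · rw [mul_zero]

/-- The adjoint of multiplication by the `J`-th `newt` function. -/
theorem pairing_newt_mul [CharZero K] (t : K) (w u : ℕ → K) (hu : ∀ k, u k = t * w k)
    (f : SymFun K) (J : ℕ) (q : SymFun K) :
    pairing t f (newt w J * q) = pairing t ((addVar u f).coeff J) q := by
  induction f using MvPolynomial.induction_on generalizing J q with
  | C c =>
    rw [addVar_C, Polynomial.coeff_C]
    have h1 : ∀ r : SymFun K, pairing t (C c) r = c * coeff 0 r := by
      intro r
      have : (C c : SymFun K) = monomial 0 c := rfl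
      rw [this, pairing_monomial_left]
      simp
    rw [h1]
    have h2 : coeff 0 (newt w J * q) = (if J = 0 then 1 else 0) * coeff 0 q := by
      have : ∀ r : SymFun K, coeff 0 r = constantCoeff r := fun r => rfl
      rw [this, this, map_mul, constantCoeff_newt]
    rw [h2]
    by_cases h : J = 0
    · rw [if_pos h, if_pos h, h1, one_mul]
    · rw [if_neg h, if_neg h, pairing_zero_left, zero_mul, mul_zero]
  | add p r hp hr =>
    rw [map_add, Polynomial.coeff_add, pairing_add_left, pairing_add_left, hp, hr]
  | mul_X p k hp =>
    rw [coeff_addVar_mul_X, mul_comm p (X k), pairing_X_mul, pderiv_mul, pairing_add_right,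
      pairing_add_left, pairing_X_mul, hp, mul_add, add_comm]
    congr 1
    have e2 : t * ((k : K) + 1) * pairing t p (pderiv k (newt w J) * q) =
        t * pairing t p ((C ((k : K) + 1) * pderiv k (newt w J)) * q) := by
      rw [mul_assoc (C ((k : K) + 1)), pairing_C_mul_right]
      ring
    rw [e2, pderiv_newt]
    by_cases hk : k + 1 ≤ J
    · rw [if_pos hk, if_pos hk, mul_assoc (C (w k)), pairing_C_mul_right, hp,
        pairing_C_mul_left, hu k]
      ring
    · rw [if_neg hk, if_neg hk, zero_mul, pairing_zero_right, pairing_zero_left, mul_zero]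

/-- The value of `addVar` on the `newt` functions. -/
theorem coeff_addVar_newt [CharZero K] (u w W : ℕ → K) (hW0 : W 0 = 1)
    (hW : ∀ a, ∑ k ∈ range a, u k * w k * W (a - 1 - k) = a * W a) (r a : ℕ) :
    (addVar u (newt w r)).coeff a = if a ≤ r then C (W a) * newt w (r - a) else 0 := by
  induction r using Nat.strong_induction_on generalizing a with
  | _ r ih =>
  rcases r with _ | r
  · rw [newt_zero, map_one, Polynomial.coeff_one]
    by_cases h : a = 0
    · subst h
      simp [hW0]
    · rw [if_neg h, if_neg (by omega)]
  · have hr : ((r : K) + 1) ≠ 0 := Nat.cast_add_one_ne_zero r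
    have hC : (C ((r : K) + 1) : SymFun K) ≠ 0 := by
      rw [Ne, C_eq_zero]
      exact hr
    apply mul_left_cancel₀ hC
    have h1 : C ((r : K) + 1) * newt w (r + 1) =
        ∑ k ∈ range (r + 1), C (w k) * (newt w (r - k) * X k) := by
      rw [newt_succ, ← mul_assoc, ← C_mul, mul_inv_cancel₀ hr, C_1, one_mul]
      apply Finset.sum_congr rfl
      intro k _
      ring
    have h2 : C ((r : K) + 1) * (addVar u (newt w (r + 1))).coeff a =
        (addVar u (C ((r : K) + 1) * newt w (r + 1))).coeff a := by
      rw [map_mul, addVar_C, Polynomial.coeff_C_mul]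
    have h3 : (addVar u (C ((r : K) + 1) * newt w (r + 1))).coeff a =
        ∑ k ∈ range (r + 1), C (w k) * (X k * (addVar u (newt w (r - k))).coeff a +
          (if k + 1 ≤ a then C (u k) * (addVar u (newt w (r - k))).coeff (a - (k + 1)) else 0)) := by
      rw [h1, map_sum, Polynomial.finsetSum_coeff]
      apply Finset.sum_congr rfl
      intro k _
      rw [map_mul, addVar_C, Polynomial.coeff_C_mul, coeff_addVar_mul_X]
    rw [h2, h3]
    have h4 : ∀ k ∈ range (r + 1),
        C (w k) * (X k * (addVar u (newt w (r - k))).coeff a +
          (if k + 1 ≤ a then C (u k) * (addVar u (newt w (r - k))).coeff (a - (k + 1)) else 0)) =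
        (if k < r + 1 - a then C (W a) * (C (w k) * X k * newt w (r + 1 - a - 1 - k)) else 0) +
        (if k < a ∧ a ≤ r + 1 then
          C (u k * w k * W (a - 1 - k)) * newt w (r + 1 - a) else 0) := by
      intro k hk
      rw [Finset.mem_range] at hk
      rw [ih (r - k) (by omega) a, ih (r - k) (by omega) (a - (k + 1)), mul_add]
      congr 1
      · by_cases h : a ≤ r - k
        · rw [if_pos h, if_pos (by omega)]
          have : r - k - a = r + 1 - a - 1 - k := by omega
          rw [this]
          ring
        · rw [if_neg h, if_neg (by omega)]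
          ring
      · by_cases h : k + 1 ≤ a
        · rw [if_pos h]
          by_cases h' : a ≤ r + 1
          · rw [if_pos (by omega), if_pos (by omega)]
            have e1 : a - (k + 1) = a - 1 - k := by omega
            have e2 : r - k - (a - 1 - k) = r + 1 - a := by omega
            rw [e1, e2]
            simp only [C_mul]
            ring
          · rw [if_neg (by omega), if_neg (by omega)]
            ring
        · rw [if_neg h, if_neg (by omega)]
          ring
    rw [Finset.sum_congr rfl h4, Finset.sum_add_distrib]
    by_cases ha : a ≤ r + 1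
    · rw [if_pos ha]
      have h5 : ∑ k ∈ range (r + 1), (if k < r + 1 - a then
          C (W a) * (C (w k) * X k * newt w (r + 1 - a - 1 - k)) else 0) =
          C (W a) * (C ((r + 1 - a : ℕ) : K) * newt w (r + 1 - a)) := by
        rw [← newt_sum w (r + 1 - a), Finset.mul_sum, ← Finset.sum_filter]
        apply Finset.sum_congr
        · ext k
          rw [Finset.mem_filter, Finset.mem_range, Finset.mem_range]
          omega
        · intro k _
          rfl
      have h6 : ∑ k ∈ range (r + 1), (if k < a ∧ a ≤ r + 1 then
          C (u k * w k * W (a - 1 - k)) * newt w (r + 1 - a) else 0) =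
          C ((a : K) * W a) * newt w (r + 1 - a) := by
        rw [← hW a, map_sum, Finset.sum_mul, ← Finset.sum_filter]
        apply Finset.sum_congr
        · ext k
          rw [Finset.mem_filter, Finset.mem_range, Finset.mem_range]
          omega
        · intro k _
          rfl
      rw [h5, h6]
      have h7 : ((r + 1 - a : ℕ) : K) = (r : K) + 1 - a := by
        rw [Nat.cast_sub ha]
        push_cast
        ring
      rw [h7]
      simp only [C_add, C_sub, C_1, C_mul]
      ring
    · rw [if_neg ha]
      rw [Finset.sum_eq_zero, Finset.sum_eq_zero]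
      · ring
      · intro k _
        rw [if_neg (by omega)]
      · intro k _
        rw [if_neg (by omega)]

end Helper487.Jack
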