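import Pool.Agent.Helper487.Jack.Skew
import Pool.Agent.Helper487.Jack.Family
import Pool.Agent.Helper487.Jack.Poly

open MvPolynomial Finset

namespace Helper487.Jack

variable {K : Type*} [Field K]

/-! ### Pairings of products of two `newt` functions -/

lemma coeff_addVar_mul [CharZero K] (u w W : ℕ → K) (hW0 : W 0 = 1)
    (hW : ∀ a, ∑ k ∈ range a, u k * w k * W (a - 1 - k) = a * W a) (r s J : ℕ) :
    (addVar u (newt w r * newt w s)).coeff J = ∑ a ∈ range (J + 1),
      if a ≤ r ∧ J - a ≤ s then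
        C (W a * W (J - a)) * (newt w (r - a) * newt w (s - (J - a))) else 0 := by
  rw [map_mul, Polynomial.coeff_mul, Finset.Nat.sum_antidiagonal_eq_sum_range_succ
    (fun i j => (addVar u (newt w r)).coeff i * (addVar u (newt w s)).coeff j)]
  apply Finset.sum_congr rfl
  intro a _
  rw [coeff_addVar_newt u w W hW0 hW, coeff_addVar_newt u w W hW0 hW]
  by_cases h1 : a ≤ r
  · by_cases h2 : J - a ≤ s
    · rw [if_pos h1, if_pos h2, if_pos ⟨h1, h2⟩, C_mul]
      ring
    · rw [if_neg h2, if_neg (fun h : a ≤ r ∧ J - a ≤ s => h2 h.2), mul_zero]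
  · rw [if_neg h1, if_neg (fun h : a ≤ r ∧ J - a ≤ s => h1 h.1), zero_mul]

lemma pairing_mul_newt [CharZero K] (t : K) (w' u w W : ℕ → K) (hu : ∀ k, u k = t * w' k)
    (hW0 : W 0 = 1) (hW : ∀ a, ∑ k ∈ range a, u k * w k * W (a - 1 - k) = a * W a)
    {r s b : ℕ} (h : r + s = b) :
    pairing t (newt w r * newt w s) (newt w' b) = W r * W s := by
  have h1 := pairing_newt_mul t w' u hu (newt w r * newt w s) b 1
  rw [mul_one] at h1
  rw [h1, coeff_addVar_mul u w W hW0 hW, pairing_comm, pairing_one_left]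
  have hcc : ∀ x : SymFun K, coeff 0 x = constantCoeff x := fun _ => rfl
  rw [hcc, map_sum, Finset.sum_eq_single r]
  · rw [if_pos ⟨le_rfl, by omega⟩, map_mul, constantCoeff_C, map_mul, constantCoeff_newt,
      constantCoeff_newt, if_pos (by omega), if_pos (by omega)]
    have : b - r = s := by omega
    rw [this]
    ring
  · intro a _ ha
    by_cases h2 : a ≤ r ∧ b - a ≤ s
    · exfalso
      omega
    · rw [if_neg h2, map_zero]
  · intro h2
    rw [Finset.mem_range] at h2
    omega

lemma pairing_pair [CharZero K] (t : K) (w' u w W : ℕ → K) (hu : ∀ k, u k = t * w' k)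
    (hW0 : W 0 = 1) (hW : ∀ a, ∑ k ∈ range a, u k * w k * W (a - 1 - k) = a * W a)
    {r s a b : ℕ} (h : r + s = a + b) :
    pairing t (newt w r * newt w s) (newt w' a * newt w' b) = Tsum W r s a := by
  rw [pairing_newt_mul t w' u hu, coeff_addVar_mul u w W hW0 hW, pairing_sum_left]
  unfold Tsum
  apply Finset.sum_congr rfl
  intro i hi
  rw [Finset.mem_range] at hi
  by_cases h2 : i ≤ r ∧ a - i ≤ s
  · rw [if_pos h2, if_pos h2, pairing_C_mul_left,
      pairing_mul_newt t w' u w W hu hW0 hW (by omega : r - i + (s - (a - i)) = b)]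
    ring
  · rw [if_neg h2, if_neg h2, pairing_zero_left]

/-! ### The coefficients -/

section Coeffs

variable [Algebra ℚ K] (κ : K)

/-- `binom(κ + a - 1, a)` -/
noncomputable def Wk (a : ℕ) : K := Polynomial.aeval κ (WP a)

/-- `binom(κ, a)` -/
noncomputable def Vk (a : ℕ) : K := Polynomial.aeval κ (VP a)

lemma Wk_zero : Wk κ 0 = 1 := by simp [Wk, WP]

lemma Vk_zero : Vk κ 0 = 1 := by simp [Vk, VP]

lemma WP_succ (a : ℕ) : Polynomial.C ((a : ℚ) + 1) * WP (a + 1) =
    (Polynomial.X + Polynomial.C (a : ℚ)) * WP a := by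
  unfold WP
  rw [Finset.prod_range_succ, Nat.factorial_succ]
  have h1 : ((a : ℚ) + 1) ≠ 0 := Nat.cast_add_one_ne_zero a
  have h2 : (a.factorial : ℚ) ≠ 0 := by exact_mod_cast a.factorial_ne_zero
  have h3 : ((a : ℚ) + 1) * (((a + 1) * a.factorial : ℕ) : ℚ)⁻¹ = (a.factorial : ℚ)⁻¹ := by
    push_cast
    field_simp
  rw [← mul_assoc, ← Polynomial.C_mul, h3]
  ring

lemma VP_succ (a : ℕ) : Polynomial.C ((a : ℚ) + 1) * VP (a + 1) =
    (Polynomial.X - Polynomial.C (a : ℚ)) * VP a := by
  unfold VP
  rw [Finset.prod_range_succ, Nat.factorial_succ]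
  have h1 : ((a : ℚ) + 1) ≠ 0 := Nat.cast_add_one_ne_zero a
  have h2 : (a.factorial : ℚ) ≠ 0 := by exact_mod_cast a.factorial_ne_zero
  have h3 : ((a : ℚ) + 1) * (((a + 1) * a.factorial : ℕ) : ℚ)⁻¹ = (a.factorial : ℚ)⁻¹ := by
    push_cast
    field_simp
  rw [← mul_assoc, ← Polynomial.C_mul, h3]
  ring

lemma Wk_succ (a : ℕ) : ((a : K) + 1) * Wk κ (a + 1) = (κ + a) * Wk κ a := by
  have h := congrArg (Polynomial.aeval κ) (WP_succ a)
  simpa [Wk, map_mul, map_add] using h

lemma Vk_succ (a : ℕ) : ((a : K) + 1) * Vk κ (a + 1) = (κ - a) * Vk κ a := by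
  have h := congrArg (Polynomial.aeval κ) (VP_succ a)
  simpa [Vk, map_mul, map_sub] using h

lemma Wk_sum (a : ℕ) : ∑ k ∈ range a, 1 * κ * Wk κ (a - 1 - k) = a * Wk κ a := by
  rw [Finset.sum_range_reflect (fun k => 1 * κ * Wk κ k) a]
  induction a with
  | zero => simp
  | succ a ih =>
    rw [Finset.sum_range_succ, ih]
    push_cast
    rw [Wk_succ]
    ring

lemma Vk_sum (a : ℕ) :
    ∑ k ∈ range a, (-1) ^ k * κ * Vk κ (a - 1 - k) = a * Vk κ a := by
  induction a with
  | zero => simp
  | succ a ih =>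
    rw [Finset.sum_range_succ']
    have h1 : ∑ k ∈ range a, (-1) ^ (k + 1) * κ * Vk κ (a + 1 - 1 - (k + 1)) =
        - ∑ k ∈ range a, (-1) ^ k * κ * Vk κ (a - 1 - k) := by
      rw [← Finset.sum_neg_distrib]
      apply Finset.sum_congr rfl
      intro k _
      have : a + 1 - 1 - (k + 1) = a - 1 - k := by omega
      rw [this, pow_succ]
      ring
    rw [h1, ih]
    push_cast
    rw [Vk_succ]
    simp
    ring

/-! ### The two-row Jack function -/

/-- The coefficients. -/
noncomputable def gk (m r : ℕ) : K := Polynomial.aeval κ (gamP m r)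

/-- The function `J̃_{(m,m)}`. -/
noncomputable def JG (m : ℕ) : SymFun K :=
  C (m.factorial : K) * ∑ r ∈ range (2 * m + 1),
    C (gk κ m r) * (newt (fun _ => κ) r * newt (fun _ => κ) (2 * m - r))

/-- Removing a part `J > m` kills `J̃_{(m,m)}`. -/
lemma coeff_addVar_JG [CharZero K] {m J : ℕ} (hJ : m < J)
    (hE : ∀ J r, m < J → r + J ≤ 2 * m → EP m J r = 0) :
    (addVar (fun _ => (1 : K)) (JG κ m)).coeff J = 0 := by
  unfold JG
  rw [map_mul, addVar_C, Polynomial.coeff_C_mul, map_sum, Polynomial.finsetSum_coeff]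
  have h1 : ∀ r ∈ range (2 * m + 1), (addVar (fun _ => (1 : K)) (C (gk κ m r) *
      (newt (fun _ => κ) r * newt (fun _ => κ) (2 * m - r)))).coeff J =
      ∑ a ∈ range (J + 1), if a ≤ r ∧ J - a ≤ 2 * m - r then
        C (gk κ m r * (Wk κ a * Wk κ (J - a))) *
          (newt (fun _ => κ) (r - a) * newt (fun _ => κ) (2 * m - r - (J - a))) else 0 := by
    intro r _
    rw [map_mul, addVar_C, Polynomial.coeff_C_mul,
      coeff_addVar_mul (fun _ => (1 : K)) (fun _ => κ) (Wk κ) (Wk_zero κ) (Wk_sum κ),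
      Finset.mul_sum]
    apply Finset.sum_congr rfl
    intro a _
    split_ifs
    · simp only [C_mul]
      ring
    · rw [mul_zero]
  rw [Finset.sum_congr rfl h1, Finset.sum_comm]
  by_cases hJ2 : J ≤ 2 * m
  · have h2 : ∀ a ∈ range (J + 1), (∑ r ∈ range (2 * m + 1),
        if a ≤ r ∧ J - a ≤ 2 * m - r then
        C (gk κ m r * (Wk κ a * Wk κ (J - a))) *
          (newt (fun _ => κ) (r - a) * newt (fun _ => κ) (2 * m - r - (J - a))) else 0) =
        ∑ r ∈ range (2 * m - J + 1), C (gk κ m (r + a) * (Wk κ a * Wk κ (J - a))) *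
          (newt (fun _ => κ) r * newt (fun _ => κ) (2 * m - J - r)) := by
      intro a ha
      rw [Finset.mem_range] at ha
      rw [← Finset.sum_filter]
      symm
      apply Finset.sum_nbij' (fun r => r + a) (fun r => r - a)
      · intro r hr
        rw [Finset.mem_range] at hr
        rw [Finset.mem_filter, Finset.mem_range]
        omega
      · intro r hr
        rw [Finset.mem_filter, Finset.mem_range] at hr
        rw [Finset.mem_range]
        omega
      · intro r _
        omega
      · intro r hr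
        rw [Finset.mem_filter, Finset.mem_range] at hr
        omega
      · intro r hr
        rw [Finset.mem_range] at hr
        have e1 : r + a - a = r := by omega
        have e2 : 2 * m - (r + a) - (J - a) = 2 * m - J - r := by omega
        rw [e1, e2]
    rw [Finset.sum_congr rfl h2, Finset.sum_comm]
    have h3 : ∀ r ∈ range (2 * m - J + 1), ∑ a ∈ range (J + 1),
        C (gk κ m (r + a) * (Wk κ a * Wk κ (J - a))) *
          (newt (fun _ => κ) r * newt (fun _ => κ) (2 * m - J - r)) = 0 := by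
      intro r hr
      rw [Finset.mem_range] at hr
      rw [← Finset.sum_mul, ← map_sum]
      have h4 : ∑ a ∈ range (J + 1), gk κ m (r + a) * (Wk κ a * Wk κ (J - a)) =
          Polynomial.aeval κ (EP m J r) := by
        unfold EP gk Wk
        rw [map_sum]
        apply Finset.sum_congr rfl
        intro a _
        rw [map_mul, map_mul, mul_assoc]
      rw [h4, hE J r hJ (by omega), map_zero, C_0, zero_mul]
    rw [Finset.sum_eq_zero h3, mul_zero]
  · have h2 : ∀ a ∈ range (J + 1), (∑ r ∈ range (2 * m + 1),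
        if a ≤ r ∧ J - a ≤ 2 * m - r then
        C (gk κ m r * (Wk κ a * Wk κ (J - a))) *
          (newt (fun _ => κ) (r - a) * newt (fun _ => κ) (2 * m - r - (J - a))) else 0) = 0 := by
      intro a ha
      rw [Finset.mem_range] at ha
      apply Finset.sum_eq_zero
      intro r hr
      rw [Finset.mem_range] at hr
      rw [if_neg (by omega)]
    rw [Finset.sum_eq_zero h2, mul_zero]

lemma pairing_JG_mm [CharZero K] (hκ : κ ≠ 0) (m : ℕ) :
    pairing κ⁻¹ (JG κ m) (newt (fun _ => κ) m * newt (fun _ => κ) m) =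
      Polynomial.aeval κ (N2P m) := by
  unfold JG N2P
  rw [pairing_C_mul_left, pairing_sum_left, map_mul, Polynomial.aeval_C, map_natCast, map_sum]
  congr 1
  apply Finset.sum_congr rfl
  intro r hr
  rw [Finset.mem_range] at hr
  rw [pairing_C_mul_left, pairing_pair κ⁻¹ (fun _ => κ) (fun _ => (1 : K)) (fun _ => κ) (Wk κ)
    (fun _ => (inv_mul_cancel₀ hκ).symm) (Wk_zero κ) (Wk_sum κ)
    (by omega : r + (2 * m - r) = m + m), map_mul]
  congr 1
  unfold Tsum Wk
  rw [map_sum]
  apply Finset.sum_congr rfl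
  intro i _
  split_ifs
  · simp only [map_mul]
  · rw [map_zero]

/-- the sign weights, giving the elementary symmetric functions -/
noncomputable def sgnw (K : Type*) [Field K] : ℕ → K := fun k => (-1) ^ k

lemma pairing_JG_e [CharZero K] {m : ℕ} (hm : 0 < m) :
    pairing 1 (JG κ m) (newt (sgnw K) m * newt (sgnw K) m -
      newt (sgnw K) (m + 1) * newt (sgnw K) (m - 1)) = Polynomial.aeval κ (cP m) := by
  unfold JG cP
  rw [pairing_C_mul_left, pairing_sum_left, map_mul, Polynomial.aeval_C, map_natCast, map_sum]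
  congr 1
  apply Finset.sum_congr rfl
  intro r hr
  rw [Finset.mem_range] at hr
  rw [pairing_C_mul_left, pairing_sub_right,
    pairing_pair 1 (sgnw K) (sgnw K) (fun _ => κ) (Vk κ)
    (fun _ => (one_mul _).symm) (Vk_zero κ) (Vk_sum κ)
    (by omega : r + (2 * m - r) = m + m),
    pairing_pair 1 (sgnw K) (sgnw K) (fun _ => κ) (Vk κ)
    (fun _ => (one_mul _).symm) (Vk_zero κ) (Vk_sum κ)
    (by omega : r + (2 * m - r) = m + 1 + (m - 1)), map_mul, map_sub]
  have hT : ∀ r s a, Tsum (Vk κ) r s a = Polynomial.aeval κ (Tsum VP r s a) := by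
    intro r s a
    unfold Tsum Vk
    rw [map_sum]
    apply Finset.sum_congr rfl
    intro i _
    split_ifs
    · simp only [map_mul]
    · rw [map_zero]
  rw [hT, hT]
  rfl

end Coeffs

/-! ### Homogeneity -/

lemma isHomogeneous_psum (N k : ℕ) : (psum (Fin N) K k).IsHomogeneous k := by
  unfold psum
  apply MvPolynomial.IsHomogeneous.sum
  intro i _
  have := (isHomogeneous_X K i).pow k
  simpa using this

lemma inVars_X (N k : ℕ) : inVars K N (X k) = psum (Fin N) K (k + 1) := by
  unfold inVars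
  rw [aeval_X]

lemma inVars_C (N : ℕ) (c : K) : inVars K N (C c) = C c := by
  unfold inVars
  rw [aeval_C]
  rfl

lemma isHomogeneous_newt (w : ℕ → K) (N m : ℕ) :
    (inVars K N (newt w m)).IsHomogeneous m := by
  induction m using Nat.strong_induction_on with
  | _ m ih =>
  rcases m with _ | m
  · rw [newt_zero, map_one]
    exact isHomogeneous_one _ _
  · rw [newt_succ, map_mul, inVars_C, map_sum]
    have h0 : m + 1 = 0 + (m + 1) := by omega
    rw [h0]
    apply (isHomogeneous_C _ _).mul
    apply MvPolynomial.IsHomogeneous.sum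
    intro k hk
    rw [Finset.mem_range] at hk
    rw [map_mul, map_mul, inVars_C, inVars_X]
    have h1 : m + 1 = 0 + (k + 1) + (m - k) := by omega
    rw [h1]
    exact ((isHomogeneous_C _ _).mul (isHomogeneous_psum N (k + 1))).mul (ih (m - k) (by omega))

lemma isHomogeneous_JG [Algebra ℚ K] (κ : K) (m N : ℕ) :
    (inVars K N (JG κ m)).IsHomogeneous (2 * m) := by
  unfold JG
  rw [map_mul, inVars_C, map_sum]
  have h0 : (∑ r ∈ range (2 * m + 1), inVars K N (C (gk κ m r) *
      (newt (fun _ => κ) r * newt (fun _ => κ) (2 * m - r)))).IsHomogeneous (2 * m) := by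
    apply MvPolynomial.IsHomogeneous.sum
    intro r hr
    rw [Finset.mem_range] at hr
    rw [map_mul, map_mul, inVars_C]
    have h1 := (isHomogeneous_newt (fun _ => κ) N r).mul
      (isHomogeneous_newt (fun _ => κ) N (2 * m - r))
    have h2 : r + (2 * m - r) = 2 * m := by omega
    rw [h2] at h1
    have h3 := (isHomogeneous_C (Fin N) (gk κ m r)).mul h1
    rwa [zero_add] at h3
  have h4 := (isHomogeneous_C (Fin N) (m.factorial : K)).mul h0
  rwa [zero_add] at h4

end Helper487.Jack
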